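import Pool.Agent.Helper96.MP.Defs

set_option autoImplicit false

namespace Pool.Agent.Helper96.MP

open Complex MeasureTheory Filter Topology
open scoped MatrixGroups

/-- coefficients of the indicator of the units -/
noncomputable def deplc (N : ℕ) [NeZero N] (j : ZMod N) : ℂ :=
  (N : ℂ)⁻¹ * ∑ r : (ZMod N)ˣ, ZMod.stdAddChar (-(r : ZMod N) * j)

theorem depl_c_unit {N : ℕ} [NeZero N] (u : (ZMod N)ˣ) (j : ZMod N) :
    deplc N ((u : ZMod N) * j) = deplc N j := by
  unfold deplc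
  congr 1
  refine Fintype.sum_equiv (Equiv.mulRight u) _ _ fun r => ?_
  rw [Equiv.coe_mulRight, Units.val_mul]
  congr 1
  ring

theorem depl_c_sum {N : ℕ} [NeZero N] (k : ℕ) :
    ∑ j : ZMod N, deplc N j * ZMod.stdAddChar ((k : ZMod N) * j) =
      if Nat.Coprime k N then 1 else 0 := by
  have hN : (N : ℂ) ≠ 0 := Nat.cast_ne_zero.2 (NeZero.ne N)
  have h1 : ∀ j : ZMod N, deplc N j * ZMod.stdAddChar ((k : ZMod N) * j) =
      ∑ r : (ZMod N)ˣ, (N : ℂ)⁻¹ * ZMod.stdAddChar (j * ((k : ZMod N) - (r : ZMod N))) := by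
    intro j
    unfold deplc
    rw [← Finset.mul_sum, mul_assoc, Finset.sum_mul]
    congr 1
    refine Finset.sum_congr rfl fun r _ => ?_
    rw [← AddChar.map_add_eq_mul]
    congr 1
    ring
  rw [Finset.sum_congr rfl fun j _ => h1 j, Finset.sum_comm]
  have h2 : ∀ r : (ZMod N)ˣ, ∑ j : ZMod N,
      (N : ℂ)⁻¹ * ZMod.stdAddChar (j * ((k : ZMod N) - (r : ZMod N))) =
      if (k : ZMod N) = (r : ZMod N) then 1 else 0 := by
    intro r
    rw [← Finset.mul_sum, AddChar.sum_mulShift _ (ZMod.isPrimitive_stdAddChar N)]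
    by_cases h3 : (k : ZMod N) = (r : ZMod N)
    · rw [if_pos h3, if_pos (sub_eq_zero.2 h3), ZMod.card]
      exact inv_mul_cancel₀ hN
    · rw [if_neg h3, if_neg (fun h => h3 (sub_eq_zero.1 h)), Nat.cast_zero, mul_zero]
  rw [Finset.sum_congr rfl fun r _ => h2 r]
  by_cases h4 : Nat.Coprime k N
  · rw [if_pos h4]
    obtain ⟨u, hu⟩ := (ZMod.isUnit_iff_coprime k N).2 h4
    rw [Finset.sum_eq_single u]
    · rw [if_pos hu.symm]
    · intro r _ hr
      rw [if_neg]
      intro h5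
      exact hr (Units.ext (by rw [← h5, hu]))
    · intro h5
      exact absurd (Finset.mem_univ u) h5
  · rw [if_neg h4]
    refine Finset.sum_eq_zero fun r _ => ?_
    rw [if_neg]
    intro h5
    exact h4 ((ZMod.isUnit_iff_coprime k N).1 ⟨r, h5.symm⟩)

/-- translates of the series -/
theorem depl_shift {N : ℕ} [NeZero N] (b : ℕ → ℂ) (τ : ℂ) (j : ZMod N) (a : ℤ)
    (ha : (a : ZMod N) = j) (k : ℕ) :
    b k * exp (2 * (Real.pi : ℂ) * I * (k : ℂ) * (τ + (a : ℂ) / (N : ℂ))) =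
      (b k * exp (2 * (Real.pi : ℂ) * I * (k : ℂ) * τ)) * ZMod.stdAddChar ((k : ZMod N) * j) := by
  have h1 : (k : ZMod N) * j = (((k : ℤ) * a : ℤ) : ZMod N) := by
    rw [← ha]; push_cast; rfl
  rw [h1, ZMod.stdAddChar_coe, mul_assoc (b k), ← Complex.exp_add]
  congr 2
  push_cast
  ring

theorem depl_qs_shift {N : ℕ} [NeZero N] (b : ℕ → ℂ) (τ : ℂ) (a a' : ℤ)
    (ha : (a : ZMod N) = (a' : ZMod N)) :
    qs b (τ + (a : ℂ) / (N : ℂ)) = qs b (τ + (a' : ℂ) / (N : ℂ)) := by
  unfold qs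
  refine tsum_congr fun k => ?_
  rw [depl_shift (N := N) b τ _ a rfl k, depl_shift (N := N) b τ _ a' rfl k, ha]

theorem depl_sum {N : ℕ} [NeZero N] (b : ℕ → ℂ) (τ : ℂ)
    (hs : Summable (fun k : ℕ => b k * exp (2 * (Real.pi : ℂ) * I * (k : ℂ) * τ))) :
    ∑ j : ZMod N, deplc N j * qs b (τ + ((j.val : ℤ) : ℂ) / (N : ℂ)) =
      qs (fun n => if Nat.Coprime n N then b n else 0) τ := by
  have hn : ∀ j : ZMod N, (((j.val : ℤ)) : ZMod N) = j := fun j => by
    rw [Int.cast_natCast, ZMod.natCast_val, ZMod.cast_id', id]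
  have h1 : ∀ j : ZMod N, Summable (fun k : ℕ => deplc N j *
      (b k * exp (2 * (Real.pi : ℂ) * I * (k : ℂ) * (τ + ((j.val : ℤ) : ℂ) / (N : ℂ))))) := by
    intro j
    refine Summable.mul_left _ ?_
    refine Summable.of_norm_bounded hs.norm fun k => ?_
    rw [depl_shift (N := N) b τ j _ (hn j) k, norm_mul]
    have h2 : ‖ZMod.stdAddChar ((k : ZMod N) * j)‖ = 1 := by
      rw [ZMod.stdAddChar_apply]
      exact Circle.norm_coe _
    rw [h2, mul_one]
  unfold qs
  rw [Finset.sum_congr rfl fun j _ => (tsum_mul_left).symm,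
    ← Summable.tsum_finsetSum fun j _ => h1 j]
  refine tsum_congr fun k => ?_
  have h3 : ∀ j : ZMod N, deplc N j *
      (b k * exp (2 * (Real.pi : ℂ) * I * (k : ℂ) * (τ + ((j.val : ℤ) : ℂ) / (N : ℂ)))) =
      (b k * exp (2 * (Real.pi : ℂ) * I * (k : ℂ) * τ)) *
        (deplc N j * ZMod.stdAddChar ((k : ZMod N) * j)) := by
    intro j
    rw [depl_shift (N := N) b τ j _ (hn j) k]
    ring
  rw [Finset.sum_congr rfl fun j _ => h3 j, ← Finset.mul_sum, depl_c_sum]
  show _ = (if Nat.Coprime k N then b k else 0) * _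
  by_cases h4 : Nat.Coprime k N
  · rw [if_pos h4, if_pos h4, mul_one]
  · rw [if_neg h4, if_neg h4, mul_zero, zero_mul]

theorem st_DEPL : ST_DEPL := by
  intro M N b hM hN hb
  have : NeZero N := ⟨by omega⟩
  have hN0 : (N : ℂ) ≠ 0 := Nat.cast_ne_zero.2 (NeZero.ne N)
  have hn : ∀ j : ZMod N, (((j.val : ℤ)) : ZMod N) = j := fun j => by
    rw [Int.cast_natCast, ZMod.natCast_val, ZMod.cast_id', id]
  have him : ∀ (τ : ℂ) (a : ℤ), (τ + (a : ℂ) / (N : ℂ)).im = τ.im := by
    intro τ a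
    have h1 : (a : ℂ) / (N : ℂ) = (((a : ℝ) / (N : ℝ) : ℝ) : ℂ) := by push_cast; rfl
    rw [h1, Complex.add_im, Complex.ofReal_im, add_zero]
  refine ⟨?_, ?_, ?_⟩
  · intro τ hτ
    refine Summable.of_norm_bounded (hb.sum τ hτ).norm fun k => ?_
    by_cases h4 : Nat.Coprime k N
    · rw [if_pos h4]
    · rw [if_neg h4, zero_mul, norm_zero]
      exact norm_nonneg _
  · intro τ hτ p q r s hdet hr
    -- divisibility
    obtain ⟨r2, hr2⟩ : ((N : ℤ) ^ 2) ∣ r := by
      refine dvd_trans ?_ hr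
      push_cast
      exact dvd_mul_left _ _
    have hMr : (M : ℤ) ∣ r := by
      refine dvd_trans ?_ hr
      push_cast
      exact dvd_mul_right _ _
    have hNr : (r : ZMod N) = 0 := by
      rw [hr2]; push_cast; simp
    have hps : (s : ZMod N) * (p : ZMod N) = 1 := by
      have h1 : ((p * s - q * r : ℤ) : ZMod N) = 1 := by rw [hdet]; simp
      push_cast at h1
      rw [hNr, mul_zero, sub_zero] at h1
      rw [mul_comm]; exact h1
    obtain ⟨u, hu⟩ : ∃ u : (ZMod N)ˣ, (u : ZMod N) = (s : ZMod N) ^ 2 := by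
      refine ⟨⟨(s : ZMod N) ^ 2, (p : ZMod N) ^ 2, ?_, ?_⟩, rfl⟩
      · rw [← mul_pow, hps, one_pow]
      · rw [← mul_pow, mul_comm, hps, one_pow]
    have hden : (r : ℂ) * τ + (s : ℂ) ≠ 0 := by
      intro h0
      have h1 := congrArg Complex.im h0
      simp only [Complex.add_im, Complex.mul_im, Complex.intCast_re, Complex.intCast_im, zero_mul,
        add_zero, Complex.zero_im] at h1
      rcases mul_eq_zero.1 h1 with h2 | h2
      · have h3 : r = 0 := by exact_mod_cast h2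
        subst h3
        have h4 : (s : ℂ) = 0 := by simpa using h0
        have h5 : s = 0 := by exact_mod_cast h4
        rw [h5] at hdet
        simp at hdet
      · exact hτ.ne' h2
    have hmo : 0 < (((p : ℂ) * τ + (q : ℂ)) / ((r : ℂ) * τ + (s : ℂ))).im := by
      have h1 : (((p : ℂ) * τ + (q : ℂ)) / ((r : ℂ) * τ + (s : ℂ))).im =
          ((p * s - q * r : ℤ) : ℝ) * τ.im / Complex.normSq ((r : ℂ) * τ + (s : ℂ)) := by
        rw [Complex.div_im]
        simp only [Complex.add_im, Complex.mul_im, Complex.intCast_re, Complex.intCast_im, zero_mul,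
          add_zero, Complex.add_re, Complex.mul_re, sub_zero]
        push_cast
        ring
      rw [h1, hdet, Int.cast_one, one_mul]
      exact div_pos hτ (Complex.normSq_pos.2 hden)
    -- key identity
    have key : ∀ j : ZMod N,
        qs b (((p : ℂ) * τ + (q : ℂ)) / ((r : ℂ) * τ + (s : ℂ)) + ((j.val : ℤ) : ℂ) / (N : ℂ)) =
        ((r : ℂ) * τ + (s : ℂ)) ^ 2 *
          qs b (τ + (((((u : ZMod N) * j).val : ℕ) : ℤ) : ℂ) / (N : ℂ)) := by
      intro j
      set a : ℤ := (j.val : ℤ) with ha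
      set a' : ℤ := ((((u : ZMod N) * j).val : ℕ) : ℤ) with ha'
      obtain ⟨e, he⟩ : (N : ℤ) ∣ a * s - a' * p := by
        rw [← ZMod.intCast_zmod_eq_zero_iff_dvd]
        push_cast
        rw [hn j, hn ((u : ZMod N) * j), hu]
        have h1 : j * (s : ZMod N) - (s : ZMod N) ^ 2 * j * (p : ZMod N) =
            j * (s : ZMod N) * (1 - (s : ZMod N) * (p : ZMod N)) := by ring
        rw [h1, hps, sub_self, mul_zero]
      have hdet' : (p + a * (N * r2)) * (s - a' * (N * r2)) - (q + e - a * a' * r2) * r = 1 := by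
        rw [← hdet, hr2]
        linear_combination ((N : ℤ) * r2) * he
      have h2 := hb.inv (τ + (a' : ℂ) / (N : ℂ)) (by rw [him]; exact hτ) _ _ _ _ hdet' hMr
      have h3 : (r : ℂ) * (τ + (a' : ℂ) / (N : ℂ)) + ((s - a' * (N * r2) : ℤ) : ℂ) =
          (r : ℂ) * τ + (s : ℂ) := by
        rw [hr2]
        push_cast
        field_simp
        ring
      have he' : (a : ℂ) * s - a' * p = N * e := by exact_mod_cast he
      have h4 : (((p + a * (N * r2) : ℤ) : ℂ) * (τ + (a' : ℂ) / (N : ℂ)) +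
          ((q + e - a * a' * r2 : ℤ) : ℂ)) / ((r : ℂ) * τ + (s : ℂ)) =
          ((p : ℂ) * τ + (q : ℂ)) / ((r : ℂ) * τ + (s : ℂ)) + (a : ℂ) / (N : ℂ) := by
        rw [div_add_div _ _ hden hN0, div_eq_div_iff hden (mul_ne_zero hden hN0)]
        have h5 : (r : ℂ) = (N : ℂ) ^ 2 * r2 := by rw [hr2]; push_cast; rfl
        push_cast
        have h6 : ((p : ℂ) + a * (N * r2)) * (τ + a' / N) + (q + e - a * a' * r2) =
            ((p * τ + q) * N + (r * τ + s) * a) / N := by
          rw [h5]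
          field_simp
          linear_combination (-1 : ℂ) * he'
        rw [h6]
        field_simp
      rw [h3, h4] at h2
      exact h2
    rw [← depl_sum b _ (hb.sum _ hmo), ← depl_sum b τ (hb.sum τ hτ), Finset.mul_sum]
    refine Fintype.sum_equiv (Units.mulLeft u) _ _ fun j => ?_
    rw [key j, Units.mulLeft_apply, depl_c_unit]
    ring
  · obtain ⟨B, hB⟩ := hb.bdd
    refine ⟨∑ j : ZMod N, ‖deplc N j‖ * B, fun τ hτ => ?_⟩
    rw [← depl_sum b τ (hb.sum τ hτ)]
    calc τ.im * ‖∑ j : ZMod N, deplc N j * qs b (τ + ((j.val : ℤ) : ℂ) / (N : ℂ))‖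
        ≤ τ.im * ∑ j : ZMod N, ‖deplc N j * qs b (τ + ((j.val : ℤ) : ℂ) / (N : ℂ))‖ :=
          mul_le_mul_of_nonneg_left (norm_sum_le _ _) hτ.le
      _ = ∑ j : ZMod N, ‖deplc N j‖ * (τ.im * ‖qs b (τ + ((j.val : ℤ) : ℂ) / (N : ℂ))‖) := by
          rw [Finset.mul_sum]
          refine Finset.sum_congr rfl fun j _ => ?_
          rw [norm_mul]; ring
      _ ≤ ∑ j : ZMod N, ‖deplc N j‖ * B := by
          refine Finset.sum_le_sum fun j _ => mul_le_mul_of_nonneg_left ?_ (norm_nonneg _)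
          have h1 := hB (τ + ((j.val : ℤ) : ℂ) / (N : ℂ)) (by rw [him]; exact hτ)
          rwa [him] at h1

end Pool.Agent.Helper96.MP
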