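import Pool.Agent.Helper9.MP.Lat
import Pool.Agent.Helper53.MP.UZ

/-!
# MP_bde085_nt, block D, module HAB3: explicit potentials
-/

set_option autoImplicit false

namespace Pool.Agent.Helper96.MP

open Complex MeasureTheory Filter Topology
open scoped MatrixGroups ContDiff

noncomputable section

open Pool.Agent.Helper53.MP (ht wt wt_nonneg wt_ne normSq_eq normSq_pos' cop_ne box1 num den
  contDiffAt_wt contDiffAt_den den_pos ht_act act_coprime act_coprime_iff wt_act den_mob uu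
  contDiffAt_uu uu_mob uu_const continuousAt_ht KK K0 isCompact_KK KK_subset st_UZ)

/-- purely algebraic part: a horoball of height `1/2` at `p / q`, `q ≥ 2`, misses the triangle -/
theorem hab3_alg (p q : ℤ) (x y : ℝ) (hq : 2 ≤ q) (hp0 : 1 ≤ p) (hpq : p ≤ q - 1)
    (hE : 0 ≤ x ^ 2 - x + y ^ 2) (hD : ((p : ℝ) - q * x) ^ 2 + (q * y) ^ 2 < 2 * y) : False := by
  have hk : (1 : ℝ) ≤ (p : ℝ) * ((q : ℝ) - p) := by
    have h1 : (1 : ℤ) ≤ p * (q - p) := by nlinarith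
    exact_mod_cast h1
  have hq' : (2 : ℝ) ≤ (q : ℝ) := by exact_mod_cast hq
  obtain ⟨k, hk'⟩ : ∃ k : ℝ, k = (p : ℝ) * ((q : ℝ) - p) := ⟨_, rfl⟩
  rw [← hk'] at hk
  have hq4 : (4 : ℝ) ≤ (q : ℝ) ^ 2 := by nlinarith
  have hm : 0 < k * (q : ℝ) ^ 2 - 2 := by nlinarith
  have hpos : 0 < 2 * (x ^ 2 - x + y ^ 2) + k * (2 * y - (((p : ℝ) - q * x) ^ 2 + (q * y) ^ 2)) := by
    have : 0 < k * (2 * y - (((p : ℝ) - q * x) ^ 2 + (q * y) ^ 2)) :=
      mul_pos (by linarith) (by linarith)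
    linarith
  have hid : (k * (q : ℝ) ^ 2 - 2) * (2 * (x ^ 2 - x + y ^ 2) +
      k * (2 * y - (((p : ℝ) - q * x) ^ 2 + (q * y) ^ 2))) =
      -((k * (q : ℝ) ^ 2 - 2) * x - (k * p * q - 1)) ^ 2 -
        ((k * (q : ℝ) ^ 2 - 2) * y - k) ^ 2 + 1 + k ^ 2 - 2 * k * ((p : ℝ) * ((q : ℝ) - p)) := by
    ring
  rw [← hk'] at hid
  have h1 := mul_pos hm hpos
  rw [hid] at h1
  nlinarith [sq_nonneg ((k * (q : ℝ) ^ 2 - 2) * x - (k * p * q - 1)),
    sq_nonneg ((k * (q : ℝ) ^ 2 - 2) * y - k)]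

theorem hab3_D0 {z : ℂ} (hz : z ∈ D0) : 0 < z.im ∧ 0 ≤ z.re ∧ z.re ≤ 1 ∧
    0 ≤ z.re ^ 2 - z.re + z.im ^ 2 := by
  obtain ⟨h1, h2, h3, h4⟩ := hz
  refine ⟨h1, h2, h3, ?_⟩
  have h5 : ‖z - 1 / 2‖ ^ 2 = (z.re - 1 / 2) ^ 2 + z.im ^ 2 := by
    rw [← Complex.normSq_eq_norm_sq, normSq_apply]
    simp
    ring
  have h6 : (1 / 2 : ℝ) ^ 2 ≤ ‖z - 1 / 2‖ ^ 2 := by
    exact pow_le_pow_left₀ (by norm_num) h4 2
  rw [h5] at h6
  nlinarith

theorem hab3_pos {p q : ℤ} {z : ℂ} (hz : z ∈ D0) (hc : IsCoprime p q) (hq : 0 < q)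
    (h : ((p : ℝ) - q * z.re) ^ 2 + (q * z.im) ^ 2 < 2 * z.im) : q = 1 ∧ (p = 0 ∨ p = 1) := by
  obtain ⟨h1, h2, h3, h4⟩ := hab3_D0 hz
  have hq1 : (1 : ℝ) ≤ (q : ℝ) := by exact_mod_cast hq
  have hqy : z.im ^ 2 ≤ (q * z.im) ^ 2 := by
    have : (1 : ℝ) ≤ (q : ℝ) ^ 2 := by nlinarith
    rw [mul_pow]
    nlinarith [sq_nonneg z.im]
  have hlow : 0 ≤ p := by
    by_contra hcon
    have hp : p ≤ -1 := by omega
    have hp' : (p : ℝ) ≤ -1 := by exact_mod_cast hp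
    have h5 : (p : ℝ) - q * z.re ≤ -1 := by nlinarith
    have h6 : 1 ≤ ((p : ℝ) - q * z.re) ^ 2 := by nlinarith
    nlinarith [sq_nonneg (z.im - 1)]
  have hup : p ≤ q := by
    by_contra hcon
    have hp : q + 1 ≤ p := by omega
    have hp' : (q : ℝ) + 1 ≤ p := by exact_mod_cast hp
    have h5 : 1 ≤ (p : ℝ) - q * z.re := by nlinarith
    have h6 : 1 ≤ ((p : ℝ) - q * z.re) ^ 2 := by nlinarith
    nlinarith [sq_nonneg (z.im - 1)]
  rcases eq_or_ne p 0 with h0 | h0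
  · subst h0
    have : IsUnit q := isCoprime_zero_left.1 hc
    rcases Int.isUnit_iff.1 this with h | h
    · exact ⟨h, Or.inl rfl⟩
    · omega
  rcases eq_or_ne p q with h5 | h5
  · subst h5
    have : IsUnit p := isCoprime_self.1 hc
    rcases Int.isUnit_iff.1 this with h | h
    · exact ⟨h, Or.inr h⟩
    · omega
  · exfalso
    exact hab3_alg p q z.re z.im (by omega) (by omega) (by omega) h4 h

/-- the six pairs -/
def hab3_s : Finset (ℤ × ℤ) := {(0, 1), (1, 1), (1, 0), (0, -1), (-1, -1), (-1, 0)}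

theorem hab3_supp {z : ℂ} (hz : z ∈ D0) (v : ℤ × ℤ) (hv : v ∉ hab3_s) : wt v z = 0 := by
  by_contra hw
  obtain ⟨hc, hh⟩ := wt_ne hw
  have hzU : z ∈ UH := (hab3_D0 hz).1
  have hpos := normSq_pos' (cop_ne hc) hzU
  unfold ht at hh
  rw [lt_div_iff₀ hpos, normSq_eq] at hh
  obtain ⟨p, q⟩ := v
  simp only at hc hh
  apply hv
  rcases lt_trichotomy q 0 with hq | hq | hq
  · have hc' : IsCoprime (-p) (-q) := hc.neg_neg
    obtain ⟨h1, h2⟩ := hab3_pos hz hc' (by omega) (by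
      push_cast
      nlinarith)
    have hq' : q = -1 := by omega
    rcases h2 with h2 | h2
    · have hp' : p = 0 := by omega
      subst hq' hp'
      simp [hab3_s]
    · have hp' : p = -1 := by omega
      subst hq' hp'
      simp [hab3_s]
  · subst hq
    have : IsUnit p := isCoprime_zero_right.1 hc
    rcases Int.isUnit_iff.1 this with h | h
    · subst h; simp [hab3_s]
    · subst h; simp [hab3_s]
  · obtain ⟨h1, h2⟩ := hab3_pos hz hc hq (by nlinarith)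
    rcases h2 with h2 | h2
    · subst h1 h2; simp [hab3_s]
    · subst h1 h2; simp [hab3_s]

theorem hab3_wt_neg (p q : ℤ) (z : ℂ) : wt (-p, -q) z = wt (p, q) z := by
  have h1 : ht (-p, -q) z = ht (p, q) z := by
    unfold ht
    rw [normSq_eq, normSq_eq]
    congr 1
    push_cast
    ring
  have h2 : IsCoprime (-p) (-q) ↔ IsCoprime p q := by
    rw [IsCoprime.neg_left_iff, IsCoprime.neg_right_iff]
  unfold wt
  rw [h1]
  simp only [h2]

theorem hab3_tsum {z : ℂ} (hz : z ∈ D0) (f : ℤ × ℤ → ℝ) (hf : ∀ p q, f (-p, -q) = f (p, q)) :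
    ∑' v : ℤ × ℤ, f v * wt v z =
      2 * (f (0, 1) * wt (0, 1) z + f (1, 1) * wt (1, 1) z + f (1, 0) * wt (1, 0) z) := by
  rw [tsum_eq_sum (s := hab3_s) (fun v hv => by rw [hab3_supp hz v hv, mul_zero])]
  have e1 := hab3_wt_neg 0 1 z
  have e2 := hab3_wt_neg 1 1 z
  have e3 := hab3_wt_neg 1 0 z
  have f1 := hf 0 1
  have f2 := hf 1 1
  have f3 := hf 1 0
  rw [neg_zero] at e1 e3 f1 f3
  unfold hab3_s
  rw [Finset.sum_insert (by decide), Finset.sum_insert (by decide), Finset.sum_insert (by decide),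
    Finset.sum_insert (by decide), Finset.sum_insert (by decide), Finset.sum_singleton,
    e1, e2, e3, f1, f2, f3]
  ring

/-- the corners of the triangle -/
def hab3_c : Fin 3 → ℤ × ℤ := ![(0, 1), (1, 1), (1, 0)]

/-- barycentric coordinates -/
def hab3_lam (i : Fin 3) (z : ℂ) : ℝ := 2 * wt (hab3_c i) z / den z

theorem hab3_lam_smooth (i : Fin 3) : ContDiffOn ℝ (⊤ : ℕ∞) (hab3_lam i) UH := by
  intro z hz
  exact ((contDiffAt_const.mul (contDiffAt_wt _ hz)).div (contDiffAt_den hz)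
    (den_pos hz).ne').contDiffWithinAt

theorem hab3_D0_sub : D0 ⊆ UH := fun _ hz => (hab3_D0 hz).1

theorem hab3_den {z : ℂ} (hz : z ∈ D0) :
    den z = 2 * (wt (0, 1) z + wt (1, 1) z + wt (1, 0) z) := by
  have h := hab3_tsum hz (fun _ => 1) (fun _ _ => rfl)
  simp only [one_mul] at h
  exact h

theorem hab3_num {z : ℂ} (hz : z ∈ D0) {C : ℤ → ℤ → ℝ} (hC : Hom0 C) (g : SL(2, ℤ)) :
    num C (mob g z) = 2 * (C (g 0 1) (g 1 1) * wt (0, 1) z +
      C (g 0 0 + g 0 1) (g 1 0 + g 1 1) * wt (1, 1) z + C (g 0 0) (g 1 0) * wt (1, 0) z) := by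
  have hzU := hab3_D0_sub hz
  have h1 : num C (mob g z) = ∑' v : ℤ × ℤ,
      C (Pool.Agent.Helper53.MP.act g v).1 (Pool.Agent.Helper53.MP.act g v).2 * wt v z := by
    unfold num
    rw [← (Pool.Agent.Helper53.MP.act g).tsum_eq]
    exact tsum_congr (fun v => by rw [wt_act g v hzU])
  rw [h1, hab3_tsum hz (fun v => C (Pool.Agent.Helper53.MP.act g v).1
    (Pool.Agent.Helper53.MP.act g v).2)]
  · simp [Pool.Agent.Helper53.MP.act]
  · intro p q
    have h2 := hC (-1) (g 0 0 * p + g 0 1 * q) (g 1 0 * p + g 1 1 * q) (by norm_num)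
    simp only [Pool.Agent.Helper53.MP.act, Equiv.coe_fn_mk]
    rw [← h2]
    congr 1 <;> ring

theorem hab3_fderiv {C : ℤ → ℤ → ℝ} (hC : Hom0 C) {v : ℤ × ℤ} (hv : IsCoprime v.1 v.2) {z : ℂ}
    (hz : z ∈ UH) (h : 2 < ht v z) : ux (uu C) z = 0 ∧ uy (uu C) z = 0 := by
  have h1 : uu C =ᶠ[𝓝 z] fun _ => C v.1 v.2 := by
    have h2 : ∀ᶠ w in 𝓝 z, 2 < ht v w := (continuousAt_ht (cop_ne hv) hz).eventually (lt_mem_nhds h)
    filter_upwards [h2, Pool.Agent.Helper53.MP.isOpen_UH.mem_nhds hz] with w hw hwU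
    exact uu_const hC hv hwU hw
  have h2 : fderiv ℝ (uu C) z = 0 := by
    rw [h1.fderiv_eq]
    simp
  unfold ux uy
  rw [h2]
  simp

theorem hab3_K {N : ℕ} {W : ℂ → ℝ} (hW : WOK N W) {C : ℤ → ℤ → ℝ} (hC : Hom0 C) :
    ∃ K : Set ℂ, IsCompact K ∧ K ⊆ UH ∧
      ∀ z ∈ UH, (∀ g ∈ CongruenceSubgroup.Gamma0 N, mob g z ∉ K) →
        ux (uu C) z = 0 ∧ uy (uu C) z = 0 := by
  obtain ⟨G, hG⟩ := hW.supp
  refine ⟨KK G, isCompact_KK G, KK_subset G, fun z hz hzK => ?_⟩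
  have h1 : ∃ γ : CongruenceSubgroup.Gamma0 N, W (mob γ.1 z) ≠ 0 := by
    by_contra hcon
    push Not at hcon
    have h2 := hW.sum z hz
    have h3 : HasSum (fun g : CongruenceSubgroup.Gamma0 N => W (mob g.1 z)) 0 := by
      simp only [hcon]
      exact hasSum_zero
    exact one_ne_zero (h2.unique h3)
  obtain ⟨γ, hγ⟩ := h1
  obtain ⟨g, hg, w, hwU, hre, hn, hgw⟩ := hG _ hγ
  have him : 2 < w.im := by
    by_contra hle
    apply hzK γ.1 γ.2
    simp only [KK, Set.mem_iUnion, Set.mem_image]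
    exact ⟨g, hg, w, ⟨hre, hn, le_of_lt hwU, not_lt.1 hle⟩, hgw.symm⟩
  have h2 : ht (Pool.Agent.Helper53.MP.act g (1, 0)) (mob g w) = w.im := by
    rw [ht_act g (1, 0) hwU]
    unfold ht
    simp
  have h3 : IsCoprime (Pool.Agent.Helper53.MP.act g (1, 0)).1
      (Pool.Agent.Helper53.MP.act g (1, 0)).2 :=
    act_coprime g (1, 0) isCoprime_one_left
  obtain ⟨v, hv⟩ := (Pool.Agent.Helper53.MP.act γ.1).surjective
    (Pool.Agent.Helper53.MP.act g (1, 0))
  have h4 : ht v z = w.im := by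
    rw [← ht_act γ.1 v hz, hv, hgw, h2]
  have h5 : IsCoprime v.1 v.2 := by
    rw [← act_coprime_iff γ.1 v, hv]
    exact h3
  exact hab3_fderiv hC h5 hz (by rw [h4]; exact him)

theorem hab3_adm {N : ℕ} {W : ℂ → ℝ} {C : ℤ → ℤ → ℝ} (_hN : 1 ≤ N) (hW : WOK N W) (hH : Hom0 C)
    (hE : EqC N C) : Adm N W (fun g => C (g 0 0) (g 1 0) - C 1 0) (uu C) := by
  refine ⟨Pool.Agent.Helper53.MP.contDiffOn_uu C, fun g hg z hz => uu_mob hE hg hz, ?_⟩
  obtain ⟨G, hG⟩ := hW.supp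
  have hK := isCompact_KK G
  have hcont := Pool.Agent.Helper53.MP.continuousOn_DD (Pool.Agent.Helper53.MP.contDiffOn_uu C)
  have hcK : ContinuousOn (DD (uu C) (uu C)) (KK G) := hcont.mono (KK_subset G)
  obtain ⟨M, hM⟩ := hK.exists_bound_of_continuousOn hcK
  have hint : IntegrableOn (fun z => W z * DD (uu C) (uu C) z) (KK G) := by
    have hms : AEStronglyMeasurable (fun z => W z * DD (uu C) (uu C) z)
        (volume.restrict (KK G)) :=
      hW.meas.aestronglyMeasurable.mul (hcK.aestronglyMeasurable hK.measurableSet)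
    have : IsFiniteMeasure (volume.restrict (KK G)) := ⟨by
      rw [Measure.restrict_apply_univ]
      exact hK.measure_lt_top⟩
    refine Integrable.of_bound hms M ?_
    refine (ae_restrict_iff' hK.measurableSet).2 (Eventually.of_forall fun z hz => ?_)
    rw [norm_mul]
    have h1 : ‖W z‖ ≤ 1 := by
      rw [Real.norm_eq_abs, abs_of_nonneg (hW.nonneg z)]
      exact hW.le_one z
    calc ‖W z‖ * ‖DD (uu C) (uu C) z‖ ≤ 1 * ‖DD (uu C) (uu C) z‖ :=
          mul_le_mul_of_nonneg_right h1 (norm_nonneg _)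
      _ ≤ M := by rw [one_mul]; exact hM z hz
  refine hint.of_forall_sdiff_eq_zero Pool.Agent.Helper53.MP.isOpen_UH.measurableSet ?_
  rintro z ⟨hzU, hzK⟩
  by_cases hWz : W z = 0
  · rw [hWz, zero_mul]
  · obtain ⟨g, hg, w, hwU, hre, hn, rfl⟩ := hG z hWz
    have him : 2 < w.im := by
      by_contra hle
      apply hzK
      simp only [KK, Set.mem_iUnion, Set.mem_image]
      exact ⟨g, hg, w, ⟨hre, hn, le_of_lt hwU, not_lt.1 hle⟩, rfl⟩
    have h1 : ht (Pool.Agent.Helper53.MP.act g (1, 0)) (mob g w) = w.im := by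
      rw [ht_act g (1, 0) hwU]
      unfold ht
      simp
    have h2 : IsCoprime (Pool.Agent.Helper53.MP.act g (1, 0)).1
        (Pool.Agent.Helper53.MP.act g (1, 0)).2 :=
      act_coprime g (1, 0) isCoprime_one_left
    obtain ⟨h3, h4⟩ := hab3_fderiv hH h2 hzU (by rw [h1]; exact him)
    unfold DD
    rw [h3, h4]
    simp

theorem st_HAB3 : ST_HAB3 := by
  refine ⟨hab3_lam, fun i => (hab3_lam_smooth i).mono (interior_subset.trans hab3_D0_sub), ?_⟩
  intro N W C hN hW hH hE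
  refine ⟨uu C, ?_, hab3_K hW hH, ?_⟩
  · exact hab3_adm hN hW hH hE
  · intro g z hz
    have hzD : z ∈ D0 := interior_subset hz
    have hzU : z ∈ UH := hab3_D0_sub hzD
    have hd := den_pos hzU
    refine ⟨?_, ?_⟩
    · unfold hab3_lam
      rw [← add_div, ← add_div, div_eq_one_iff_eq hd.ne', hab3_den hzD]
      simp [hab3_c]
      ring
    · unfold uu
      rw [den_mob g hzU, hab3_num hzD hH g, div_eq_iff hd.ne']
      unfold hab3_lam
      simp [hab3_c]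
      field_simp

end

end Pool.Agent.Helper96.MP
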