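import Pool.Agent.Helper9.MP.Lat
import Pool.Agent.Helper79.MP.FOLD

/-!
# MP_bde085_nt, block D, module HAB4: integrals over the quotient as sums over ideal triangles
-/

set_option autoImplicit false

namespace Pool.Agent.Helper96.MP

open Complex MeasureTheory Filter Topology
open scoped MatrixGroups ENNReal

/-- the region of `D0` nearest to `∞`, closed and open -/
def hab4_P : Set ℂ := {w | 0 < w.im ∧ 0 ≤ w.re ∧ w.re ≤ 1 ∧ 1 ≤ w.re ^ 2 + w.im ^ 2 ∧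
  1 ≤ (w.re - 1) ^ 2 + w.im ^ 2}
def hab4_Po : Set ℂ := {w | 0 < w.im ∧ 0 < w.re ∧ w.re < 1 ∧ 1 < w.re ^ 2 + w.im ^ 2 ∧
  1 < (w.re - 1) ^ 2 + w.im ^ 2}

theorem hab4_D0 (z : ℂ) : z ∈ D0 ↔ (0 < z.im ∧ 0 ≤ z.re ∧ z.re ≤ 1 ∧
    z.re ≤ z.re ^ 2 + z.im ^ 2) := by
  have h5 : ‖z - 1 / 2‖ ^ 2 = (z.re - 1 / 2) ^ 2 + z.im ^ 2 := by
    rw [← Complex.normSq_eq_norm_sq, normSq_apply]
    simp
    ring
  unfold D0
  simp only [Set.mem_ofPred_eq]
  refine and_congr_right fun _ => and_congr_right fun _ => and_congr_right fun _ => ?_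
  constructor
  · intro h4
    have h6 : (1 / 2 : ℝ) ^ 2 ≤ ‖z - 1 / 2‖ ^ 2 := pow_le_pow_left₀ (by norm_num) h4 2
    rw [h5] at h6
    nlinarith
  · intro h4
    have h6 : (1 / 2 : ℝ) ^ 2 ≤ ‖z - 1 / 2‖ ^ 2 := by
      rw [h5]
      nlinarith
    exact le_of_sq_le_sq h6 (norm_nonneg _)

theorem hab4_D0U {z : ℂ} (hz : z ∈ D0) : z ∈ UH := ((hab4_D0 z).1 hz).1

theorem hab4_Po_D0 {z : ℂ} (hz : z ∈ hab4_Po) : z ∈ D0 := by
  obtain ⟨h1, h2, h3, h4, h5⟩ := hz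
  rw [hab4_D0]
  exact ⟨h1, h2.le, h3.le, by linarith⟩

theorem hab4_ge (p q : ℤ) (x y : ℝ) (hq : q ≠ 0) (hx0 : 0 ≤ x) (hx1 : x ≤ 1)
    (h0 : 1 ≤ x ^ 2 + y ^ 2) (h1 : 1 ≤ (x - 1) ^ 2 + y ^ 2) :
    1 ≤ ((p : ℝ) - q * x) ^ 2 + (q * y) ^ 2 := by
  have hy : 3 / 4 ≤ y ^ 2 := by
    rcases le_total x (1 / 2) with h | h
    · nlinarith
    · nlinarith
  by_cases hq1 : q = 1
  · subst hq1
    rw [Int.cast_one, one_mul, one_mul]
    rcases le_or_gt p 0 with hp | hp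
    · have hp' : (p : ℝ) ≤ 0 := by exact_mod_cast hp
      nlinarith
    · have hp' : (1 : ℝ) ≤ p := by exact_mod_cast hp
      nlinarith
  by_cases hq2 : q = -1
  · subst hq2
    rw [Int.cast_neg, Int.cast_one]
    rcases lt_or_ge p 0 with hp | hp
    · have hp' : (p : ℝ) ≤ -1 := by
        have : p ≤ -1 := by omega
        exact_mod_cast this
      nlinarith
    · have hp' : (0 : ℝ) ≤ p := by exact_mod_cast hp
      nlinarith
  · have hq4 : (4 : ℝ) ≤ (q : ℝ) ^ 2 := by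
      have : (4 : ℤ) ≤ q ^ 2 := by
        rcases lt_or_gt_of_ne hq with h | h
        · have : q ≤ -2 := by omega
          nlinarith
        · have : 2 ≤ q := by omega
          nlinarith
      exact_mod_cast this
    rw [mul_pow]
    nlinarith [sq_nonneg ((p : ℝ) - q * x), sq_nonneg y]

theorem hab4_gt (p q : ℤ) (x y : ℝ) (hq : q ≠ 0) (hx0 : 0 ≤ x) (hx1 : x ≤ 1)
    (h0 : 1 < x ^ 2 + y ^ 2) (h1 : 1 < (x - 1) ^ 2 + y ^ 2) :
    1 < ((p : ℝ) - q * x) ^ 2 + (q * y) ^ 2 := by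
  have hy : 3 / 4 < y ^ 2 := by
    rcases le_total x (1 / 2) with h | h
    · nlinarith
    · nlinarith
  by_cases hq1 : q = 1
  · subst hq1
    rw [Int.cast_one, one_mul, one_mul]
    rcases le_or_gt p 0 with hp | hp
    · have hp' : (p : ℝ) ≤ 0 := by exact_mod_cast hp
      nlinarith
    · have hp' : (1 : ℝ) ≤ p := by exact_mod_cast hp
      nlinarith
  by_cases hq2 : q = -1
  · subst hq2
    rw [Int.cast_neg, Int.cast_one]
    rcases lt_or_ge p 0 with hp | hp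
    · have hp' : (p : ℝ) ≤ -1 := by
        have : p ≤ -1 := by omega
        exact_mod_cast this
      nlinarith
    · have hp' : (0 : ℝ) ≤ p := by exact_mod_cast hp
      nlinarith
  · have hq4 : (4 : ℝ) ≤ (q : ℝ) ^ 2 := by
      have : (4 : ℤ) ≤ q ^ 2 := by
        rcases lt_or_gt_of_ne hq with h | h
        · have : q ≤ -2 := by omega
          nlinarith
        · have : 2 ≤ q := by omega
          nlinarith
      exact_mod_cast this
    rw [mul_pow]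
    nlinarith [sq_nonneg ((p : ℝ) - q * x), sq_nonneg y]

theorem hab4_jj (g : SL(2, ℤ)) (z : ℂ) : ‖jj g z‖ ^ 2 =
    (((g 1 1 : ℤ) : ℝ) - ((-(g 1 0) : ℤ) : ℝ) * z.re) ^ 2 + (((-(g 1 0) : ℤ) : ℝ) * z.im) ^ 2 := by
  rw [← Complex.normSq_eq_norm_sq, normSq_apply]
  unfold jj
  simp
  ring

theorem hab4_inv10 (g : SL(2, ℤ)) : (g⁻¹) 1 0 = -(g 1 0) := by
  rw [Matrix.SpecialLinearGroup.SL2_inv_expl]
  simp

/-- the stabilizer of the open region is trivial -/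
theorem hab4_one {h : SL(2, ℤ)} {z : ℂ} (hz : z ∈ hab4_Po) (hw : mob h z ∈ hab4_P) :
    h = 1 ∨ h = -1 := by
  obtain ⟨z1, z2, z3, z4, z5⟩ := hz
  obtain ⟨w, hwdef⟩ : ∃ w, w = mob h z := ⟨_, rfl⟩
  rw [← hwdef] at hw
  obtain ⟨w1, w2, w3, w4, w5⟩ := hw
  have hzU : z ∈ UH := z1
  have hdet := Lib.det1 h
  by_cases hc : h 1 0 = 0
  · rw [hc, mul_zero, sub_zero] at hdet
    have hmob : w = z + ((h 0 1 * h 1 1 : ℤ) : ℂ) := by
      rw [hwdef]
      unfold mob mo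
      rw [hc]
      have hd : ((h 1 1 : ℤ) : ℂ) ≠ 0 := by
        intro h0
        have h0' : h 1 1 = 0 := by exact_mod_cast h0
        rw [h0'] at hdet
        simp at hdet
      have hdet' : ((h 0 0 : ℤ) : ℂ) * ((h 1 1 : ℤ) : ℂ) = 1 := by exact_mod_cast hdet
      have hdd : ((h 1 1 : ℤ) : ℂ) * ((h 1 1 : ℤ) : ℂ) = 1 := by
        have : h 1 1 * h 1 1 = 1 := by
          rcases Int.isUnit_iff.1 (IsUnit.of_mul_eq_one _ (by rw [mul_comm]; exact hdet :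
            h 1 1 * h 0 0 = 1)) with h3 | h3
          · rw [h3]; norm_num
          · rw [h3]; norm_num
        exact_mod_cast this
      rw [Int.cast_zero, zero_mul, zero_add, div_eq_iff hd]
      push_cast
      linear_combination (-(h 0 1 : ℤ) : ℂ) * hdd +
        (z * (h 1 1 : ℤ)) * hdet' - (z * (h 0 0 : ℤ)) * hdd
    have hre : w.re = z.re + ((h 0 1 * h 1 1 : ℤ) : ℝ) := by
      rw [hmob]; simp
    have hk : h 0 1 * h 1 1 = 0 := by
      have k1 : (-1 : ℝ) < ((h 0 1 * h 1 1 : ℤ) : ℝ) := by linarith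
      have k2 : ((h 0 1 * h 1 1 : ℤ) : ℝ) < 1 := by linarith
      have k1' : (-1 : ℤ) < h 0 1 * h 1 1 := by exact_mod_cast k1
      have k2' : h 0 1 * h 1 1 < 1 := by exact_mod_cast k2
      omega
    have hd0 : h 1 1 ≠ 0 := by
      intro h0'
      rw [h0'] at hdet
      simp at hdet
    have hb : h 0 1 = 0 := by
      rcases mul_eq_zero.1 hk with h3 | h3
      · exact h3
      · exact absurd h3 hd0
    rcases Int.isUnit_iff.1 (IsUnit.of_mul_eq_one _ hdet : IsUnit (h 0 0)) with ha | ha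
    · left
      have hd : h 1 1 = 1 := by rw [ha, one_mul] at hdet; exact hdet
      ext i j
      fin_cases i <;> fin_cases j
      · simpa using ha
      · simpa using hb
      · simpa using hc
      · simpa using hd
    · right
      have hd : h 1 1 = -1 := by rw [ha] at hdet; omega
      ext i j
      fin_cases i <;> fin_cases j
      · simpa using ha
      · simpa using hb
      · simpa using hc
      · simpa using hd
  · exfalso
    have e1 : w.im = z.im / ‖jj h z‖ ^ 2 := by rw [hwdef]; exact Lib.mob_im h hzU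
    have e2 : 1 < ‖jj h z‖ ^ 2 := by
      rw [hab4_jj]
      exact hab4_gt _ _ _ _ (neg_ne_zero.2 hc) z2.le z3.le z4 z5
    have e3 : mob h⁻¹ w = z := by rw [hwdef]; exact Lib.mob_inv_mob h hzU
    have e4 : z.im = w.im / ‖jj h⁻¹ w‖ ^ 2 := by
      have := Lib.mob_im h⁻¹ (show w ∈ UH from w1)
      rwa [e3] at this
    have e5 : 1 ≤ ‖jj h⁻¹ w‖ ^ 2 := by
      rw [hab4_jj]
      refine hab4_ge _ _ _ _ ?_ w2 w3 w4 w5
      rw [hab4_inv10, neg_neg]
      exact hc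
    have e6 : w.im < z.im := by
      rw [e1, div_lt_iff₀ (by linarith)]
      nlinarith
    have e7 : z.im ≤ w.im := by
      rw [e4]
      exact div_le_self w1.le e5
    linarith

/-! ## the rotation -/

theorem hab4_mobR (z : ℂ) (hz : z ∈ UH) : (mob mR z).re = 1 - z.re / (z.re ^ 2 + z.im ^ 2) ∧
    (mob mR z).im = z.im / (z.re ^ 2 + z.im ^ 2) := by
  have hz0 : z ≠ 0 := by
    rintro rfl
    have h0 : (0 : ℝ) < (0 : ℂ).im := hz
    simp at h0
  have h1 : mob mR z = 1 - z⁻¹ := by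
    unfold mob mo mR
    simp
    field_simp
    ring
  have h2 : normSq z = z.re ^ 2 + z.im ^ 2 := by rw [normSq_apply]; ring
  rw [h1]
  simp only [sub_re, one_re, inv_re, sub_im, one_im, inv_im, h2]
  refine ⟨trivial, ?_⟩
  ring

theorem hab4_R_D0 {z : ℂ} (hz : z ∈ D0) : mob mR z ∈ D0 := by
  have hzU := hab4_D0U hz
  rw [hab4_D0] at hz ⊢
  obtain ⟨h1, h2, h3, h4⟩ := hz
  obtain ⟨e1, e2⟩ := hab4_mobR z hzU
  have hn : 0 < z.re ^ 2 + z.im ^ 2 := by positivity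
  rw [e1, e2]
  refine ⟨div_pos h1 hn, ?_, ?_, ?_⟩
  · have : z.re / (z.re ^ 2 + z.im ^ 2) ≤ 1 := (div_le_one hn).2 h4
    linarith
  · have : 0 ≤ z.re / (z.re ^ 2 + z.im ^ 2) := div_nonneg h2 hn.le
    linarith
  · have h5 : (1 - z.re / (z.re ^ 2 + z.im ^ 2)) ^ 2 + (z.im / (z.re ^ 2 + z.im ^ 2)) ^ 2 -
        (1 - z.re / (z.re ^ 2 + z.im ^ 2)) = (1 - z.re) / (z.re ^ 2 + z.im ^ 2) := by
      field_simp
      ring
    have h6 : 0 ≤ (1 - z.re) / (z.re ^ 2 + z.im ^ 2) := div_nonneg (by linarith) hn.le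
    linarith

/-- if the nearest cusp is `0` then the rotation maps into `P` -/
theorem hab4_case0 {z : ℂ} (hz : z ∈ D0) (ha : z.re ^ 2 + z.im ^ 2 ≤ 1)
    (hb : z.re ^ 2 + z.im ^ 2 ≤ (z.re - 1) ^ 2 + z.im ^ 2) : mob mR z ∈ hab4_P := by
  have hR := (hab4_D0 _).1 (hab4_R_D0 hz)
  have hzU := hab4_D0U hz
  have hz0 : 0 < z.im := hzU
  have hn : 0 < z.re ^ 2 + z.im ^ 2 := by positivity
  obtain ⟨e1, e2⟩ := hab4_mobR z hzU
  refine ⟨hR.1, hR.2.1, hR.2.2.1, ?_, ?_⟩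
  · have h5 : (mob mR z).re ^ 2 + (mob mR z).im ^ 2 =
        ((z.re - 1) ^ 2 + z.im ^ 2) / (z.re ^ 2 + z.im ^ 2) := by
      rw [e1, e2]
      field_simp
      ring
    rw [h5, one_le_div hn]
    exact hb
  · have h5 : ((mob mR z).re - 1) ^ 2 + (mob mR z).im ^ 2 = 1 / (z.re ^ 2 + z.im ^ 2) := by
      rw [e1, e2]
      field_simp
      ring
    rw [h5, one_le_div hn]
    exact ha

theorem hab4_case1 {z : ℂ} (hz : z ∈ D0) (ha : (z.re - 1) ^ 2 + z.im ^ 2 ≤ 1)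
    (hb : (z.re - 1) ^ 2 + z.im ^ 2 ≤ z.re ^ 2 + z.im ^ 2) : mob mR (mob mR z) ∈ hab4_P := by
  have hzU := hab4_D0U hz
  have hz0 : 0 < z.im := hzU
  have hn : 0 < z.re ^ 2 + z.im ^ 2 := by positivity
  obtain ⟨e1, e2⟩ := hab4_mobR z hzU
  have h5 : (mob mR z).re ^ 2 + (mob mR z).im ^ 2 =
      ((z.re - 1) ^ 2 + z.im ^ 2) / (z.re ^ 2 + z.im ^ 2) := by
    rw [e1, e2]
    field_simp
    ring
  have h6 : ((mob mR z).re - 1) ^ 2 + (mob mR z).im ^ 2 = 1 / (z.re ^ 2 + z.im ^ 2) := by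
    rw [e1, e2]
    field_simp
    ring
  refine hab4_case0 (hab4_R_D0 hz) ?_ ?_
  · rw [h5, div_le_one hn]
    exact hb
  · rw [h5, h6]
    exact div_le_div_of_nonneg_right ha hn.le

theorem hab4_cases {z : ℂ} (hz : z ∈ D0) : z ∈ hab4_P ∨ mob mR z ∈ hab4_P ∨
    mob mR (mob mR z) ∈ hab4_P := by
  have h := (hab4_D0 z).1 hz
  by_cases h0 : 1 ≤ z.re ^ 2 + z.im ^ 2
  · by_cases h1 : 1 ≤ (z.re - 1) ^ 2 + z.im ^ 2
    · exact Or.inl ⟨h.1, h.2.1, h.2.2.1, h0, h1⟩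
    · rw [not_le] at h1
      exact Or.inr (Or.inr (hab4_case1 hz h1.le (by linarith)))
  · rw [not_le] at h0
    rcases le_total (z.re ^ 2 + z.im ^ 2) ((z.re - 1) ^ 2 + z.im ^ 2) with h1 | h1
    · exact Or.inr (Or.inl (hab4_case0 hz h0.le h1))
    · exact Or.inr (Or.inr (hab4_case1 hz (by linarith) h1))

/-- the six elements -/
def hab4_S : Finset SL(2, ℤ) := {1, -1, mR, -mR, mR * mR, -(mR * mR)}

theorem hab4_S_card : hab4_S.card = 6 := by decide

theorem hab4_R3 : mR * (mR * mR) = -1 := by decide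

theorem hab4_set {z : ℂ} (hz : z ∈ hab4_Po) (g : SL(2, ℤ)) : mob g z ∈ D0 ↔ g ∈ hab4_S := by
  have hzD := hab4_Po_D0 hz
  have hzU := hab4_D0U hzD
  constructor
  · intro hg
    have h3 : ∀ h : SL(2, ℤ), h = 1 ∨ h = -1 → ∀ k : SL(2, ℤ), h = k * g →
        (g = k⁻¹ ∨ g = -k⁻¹) := by
      rintro h (rfl | rfl) k hk
      · exact Or.inl (eq_inv_of_mul_eq_one_right hk.symm)
      · right
        have : k * (-g) = 1 := by rw [mul_neg, ← hk, neg_neg]
        rw [← eq_inv_of_mul_eq_one_right this, neg_neg]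
    have hS : ∀ k : SL(2, ℤ), (k = 1 ∨ k = mR ∨ k = mR * mR) → (g = k⁻¹ ∨ g = -k⁻¹) →
        g ∈ hab4_S := by
      have i1 : mR⁻¹ = -(mR * mR) := by decide
      have i2 : (mR * mR)⁻¹ = -mR := by decide
      rintro k (rfl | rfl | rfl) (h | h)
      · rw [h, inv_one]; simp [hab4_S]
      · rw [h, inv_one]; simp [hab4_S]
      · rw [h, i1]; simp [hab4_S]
      · rw [h, i1, neg_neg]; simp [hab4_S]
      · rw [h, i2]; simp [hab4_S]
      · rw [h, i2, neg_neg]; simp [hab4_S]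
    rcases hab4_cases hg with h | h | h
    · exact hS 1 (Or.inl rfl) (h3 g (hab4_one hz h) 1 (one_mul g).symm)
    · rw [← Lib.mob_mul mR g hzU] at h
      exact hS mR (Or.inr (Or.inl rfl)) (h3 _ (hab4_one hz h) mR rfl)
    · rw [← Lib.mob_mul mR g hzU, ← Lib.mob_mul mR _ hzU] at h
      exact hS (mR * mR) (Or.inr (Or.inr rfl)) (h3 _ (hab4_one hz h) (mR * mR)
        (by rw [mul_assoc]))
  · intro hg
    have r1 := hab4_R_D0 hzD
    have r2 := hab4_R_D0 r1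
    rw [← Lib.mob_mul mR mR hzU] at r2
    unfold hab4_S at hg
    simp only [Finset.mem_insert, Finset.mem_singleton] at hg
    rcases hg with rfl | rfl | rfl | rfl | rfl | rfl
    · rw [Lib.mob_one]; exact hzD
    · rw [Lib.mob_neg, Lib.mob_one]; exact hzD
    · exact r1
    · rw [Lib.mob_neg]; exact r1
    · exact r2
    · rw [Lib.mob_neg]; exact r2

theorem hab4_D0_meas : MeasurableSet D0 := by
  have h : D0 = {z : ℂ | 0 < z.im ∧ 0 ≤ z.re ∧ z.re ≤ 1 ∧ z.re ≤ z.re ^ 2 + z.im ^ 2} := by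
    ext z; exact hab4_D0 z
  rw [h]
  have m1 := Complex.measurable_im
  have m2 := Complex.measurable_re
  refine (measurableSet_lt measurable_const m1).inter ((measurableSet_le measurable_const m2).inter
    ((measurableSet_le m2 measurable_const).inter (measurableSet_le m2 ?_)))
  fun_prop

/-- every point has a translate in `P` -/
theorem hab4_exP {z : ℂ} (hz : z ∈ UH) : ∃ g : SL(2, ℤ), mob g z ∈ hab4_P := by
  obtain ⟨g, hg⟩ := ModularGroup.exists_smul_mem_fd (⟨z, hz⟩ : UpperHalfPlane)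
  have h1 : mob g z = ((g • (⟨z, hz⟩ : UpperHalfPlane) : UpperHalfPlane) : ℂ) := cov_mob_eq g z hz
  have hwU := Lib.mob_mem g hz
  obtain ⟨w, hw⟩ : ∃ w, w = mob g z := ⟨_, rfl⟩
  have h2 : 1 ≤ w.re ^ 2 + w.im ^ 2 := by
    have := hg.1
    rw [← h1, ← hw, normSq_apply] at this
    nlinarith
  have h3 : |w.re| ≤ 1 / 2 := by
    have := hg.2
    rw [← UpperHalfPlane.coe_re, ← h1, ← hw] at this
    exact this
  rw [← hw] at hwU
  have hw0 : 0 < w.im := hwU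
  have h4 := abs_le.1 h3
  rcases le_total 0 w.re with h | h
  · refine ⟨g, ?_⟩
    rw [← hw]
    exact ⟨hw0, h, by linarith, h2, by nlinarith⟩
  · refine ⟨ModularGroup.T ^ (1 : ℤ) * g, ?_⟩
    rw [Lib.mob_mul _ _ hz, Lib.mob_T_zpow, ← hw]
    refine ⟨?_, ?_, ?_, ?_, ?_⟩
    · simpa using hw0
    · simp; linarith
    · simp; linarith
    · simp; nlinarith
    · simp; nlinarith

theorem hab4_null_re (c : ℝ) : volume {z : ℂ | z.re = c} = 0 := by
  have h1 : Convex ℝ {z : ℂ | z.re ≤ c} := convex_halfSpace_re_le c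
  have h2 := h1.addHaar_frontier (μ := (volume : Measure ℂ))
  rwa [Complex.frontier_setOfPred_re_le] at h2

theorem hab4_null : volume (UH ∩ (hab4_P \ hab4_Po)) = 0 := by
  have h1 : UH ∩ (hab4_P \ hab4_Po) ⊆ {z : ℂ | z.re = 0} ∪ {z : ℂ | z.re = 1} ∪
      Metric.sphere (0 : ℂ) 1 ∪ Metric.sphere (1 : ℂ) 1 := by
    rintro z ⟨_, ⟨h1, h2, h3, h4, h5⟩, h6⟩
    have n0 : ‖z‖ ^ 2 = z.re ^ 2 + z.im ^ 2 := by
      rw [← Complex.normSq_eq_norm_sq, normSq_apply]; ring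
    have n1 : ‖z - 1‖ ^ 2 = (z.re - 1) ^ 2 + z.im ^ 2 := by
      rw [← Complex.normSq_eq_norm_sq, normSq_apply]; simp; ring
    by_contra hcon
    simp only [Set.mem_union, not_or, Set.mem_ofPred_eq, mem_sphere_iff_norm, sub_zero] at hcon
    obtain ⟨⟨⟨c1, c2⟩, c3⟩, c4⟩ := hcon
    apply h6
    refine ⟨h1, lt_of_le_of_ne h2 (Ne.symm c1), lt_of_le_of_ne h3 c2,
      lt_of_le_of_ne h4 fun h => c3 ?_, lt_of_le_of_ne h5 fun h => c4 ?_⟩
    · rw [← n0] at h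
      exact (pow_eq_one_iff_of_nonneg (norm_nonneg _) two_ne_zero).1 h.symm
    · rw [← n1] at h
      exact (pow_eq_one_iff_of_nonneg (norm_nonneg _) two_ne_zero).1 h.symm
  refine measure_mono_null h1 ?_
  rw [measure_union_null_iff, measure_union_null_iff, measure_union_null_iff]
  exact ⟨⟨⟨hab4_null_re 0, hab4_null_re 1⟩, Measure.addHaar_sphere _ _ _⟩,
    Measure.addHaar_sphere _ _ _⟩

theorem hab4_P_meas : MeasurableSet (hab4_P \ hab4_Po) := by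
  have m1 := Complex.measurable_im
  have m2 := Complex.measurable_re
  have n1 : Measurable fun w : ℂ => w.re ^ 2 + w.im ^ 2 := by fun_prop
  have n2 : Measurable fun w : ℂ => (w.re - 1) ^ 2 + w.im ^ 2 := by fun_prop
  refine MeasurableSet.diff ?_ ?_
  · exact (measurableSet_lt measurable_const m1).inter
      ((measurableSet_le measurable_const m2).inter ((measurableSet_le m2 measurable_const).inter
      ((measurableSet_le measurable_const n1).inter (measurableSet_le measurable_const n2))))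
  · exact (measurableSet_lt measurable_const m1).inter
      ((measurableSet_lt measurable_const m2).inter ((measurableSet_lt m2 measurable_const).inter
      ((measurableSet_lt measurable_const n1).inter (measurableSet_lt measurable_const n2))))

/-- almost every point has a translate in the open region -/
theorem hab4_ae : ∀ᵐ z ∂(volume.restrict UH), ∃ g : SL(2, ℤ), mob g z ∈ hab4_Po := by
  have : Countable SL(2, ℤ) := cov_countable
  have h1 : ∀ g : SL(2, ℤ), volume (mob g '' (UH ∩ (hab4_P \ hab4_Po))) = 0 := by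
    intro g
    have hK : MeasurableSet (UH ∩ (hab4_P \ hab4_Po)) := fold_UH.inter hab4_P_meas
    have h2 := cov_change g hK Set.inter_subset_left (fun _ => 1)
    rw [lintegral_one, Measure.restrict_apply_univ, Measure.restrict_eq_zero.2 hab4_null,
      lintegral_zero_measure] at h2
    exact h2
  have h3 : volume (⋃ g : SL(2, ℤ), mob g '' (UH ∩ (hab4_P \ hab4_Po))) = 0 :=
    measure_iUnion_null h1
  have h4 : ∀ᵐ z ∂(volume.restrict UH), z ∉ ⋃ g : SL(2, ℤ), mob g '' (UH ∩ (hab4_P \ hab4_Po)) :=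
    ae_restrict_of_ae (measure_eq_zero_iff_ae_notMem.1 h3)
  filter_upwards [h4, ae_restrict_mem fold_UH] with z hz hzU
  obtain ⟨g, hg⟩ := hab4_exP hzU
  refine ⟨g, ?_⟩
  by_contra hcon
  apply hz
  rw [Set.mem_iUnion]
  exact ⟨g⁻¹, mob g z, ⟨Lib.mob_mem g hzU, hg, hcon⟩, Lib.mob_inv_mob g hzU⟩

/-- almost every point lies in exactly six translates of `D0` -/
theorem hab4_six (F : ℂ → ℝ≥0∞) : ∀ᵐ z ∂(volume.restrict UH),
    ∑' g : SL(2, ℤ), {z | mob g z ∈ D0}.indicator F z = 6 * F z := by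
  filter_upwards [hab4_ae, ae_restrict_mem fold_UH] with z hz hzU
  obtain ⟨g0, hg0⟩ := hz
  rw [← (Equiv.mulRight g0).tsum_eq]
  have h1 : ∀ g : SL(2, ℤ), {z | mob ((Equiv.mulRight g0) g) z ∈ D0}.indicator F z =
      (hab4_S : Set SL(2, ℤ)).indicator (fun _ => F z) g := by
    intro g
    have h2 : mob ((Equiv.mulRight g0) g) z ∈ D0 ↔ g ∈ hab4_S := by
      rw [← hab4_set hg0 g]
      show mob (g * g0) z ∈ D0 ↔ _
      rw [Lib.mob_mul _ _ hzU]
    by_cases h : g ∈ hab4_S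
    · rw [Set.indicator_of_mem (show z ∈ {z | mob ((Equiv.mulRight g0) g) z ∈ D0} from h2.2 h),
        Set.indicator_of_mem (show g ∈ (hab4_S : Set SL(2, ℤ)) from h)]
    · rw [Set.indicator_of_notMem (show z ∉ {z | mob ((Equiv.mulRight g0) g) z ∈ D0} from
        fun h3 => h (h2.1 h3)), Set.indicator_of_notMem (show g ∉ (hab4_S : Set SL(2, ℤ)) from h)]
  simp only [h1]
  rw [tsum_eq_sum (s := hab4_S) (fun g hg => Set.indicator_of_notMem (by simpa using hg) _)]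
  rw [Finset.sum_congr rfl (fun g hg => Set.indicator_of_mem (show g ∈ (hab4_S : Set SL(2, ℤ))
    from hg) _), Finset.sum_const, hab4_S_card]
  simp

/-- measurable extension by zero -/
theorem hab4_measF {Ψ : ℂ → ℝ} (hΨ : ContinuousOn Ψ UH) : Measurable (UH.indicator Ψ) := by
  classical
  have := ContinuousOn.measurable_piecewise (f := Ψ) (g := (0 : ℂ → ℝ)) (s := UH) hΨ
    continuousOn_const fold_UH
  rwa [Set.piecewise_eq_indicator] at this

/-- the density on the triangle -/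
noncomputable def hab4_G (Ψ : ℂ → ℝ) (g : SL(2, ℤ)) (z : ℂ) : ℝ :=
  Ψ (mob g z) * (‖jj g z‖ ^ 4)⁻¹

theorem hab4_G_cont {Ψ : ℂ → ℝ} (hΨ : ContinuousOn Ψ UH) (g : SL(2, ℤ)) :
    ContinuousOn (hab4_G Ψ g) UH := by
  refine ContinuousOn.mul (hΨ.comp (Lib.continuousOn_mob g) fun z hz => Lib.mob_mem g hz) ?_
  refine ContinuousOn.inv₀ ?_ fun z hz => pow_ne_zero 4 (norm_ne_zero_iff.2 (Lib.jj_ne g hz))
  have : Continuous fun z : ℂ => ‖jj g z‖ ^ 4 := by
    unfold jj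
    fun_prop
  exact this.continuousOn

theorem hab4_G_mul {N : ℕ} {Ψ : ℂ → ℝ}
    (hE : ∀ g ∈ CongruenceSubgroup.Gamma0 N, ∀ z ∈ UH, Ψ (mob g z) = ‖jj g z‖ ^ 4 * Ψ z)
    {γ : SL(2, ℤ)} (hγ : γ ∈ CongruenceSubgroup.Gamma0 N) (h : SL(2, ℤ)) {z : ℂ} (hz : z ∈ UH) :
    hab4_G Ψ (γ * h) z = hab4_G Ψ h z := by
  unfold hab4_G
  have hj := pow_ne_zero 4 (norm_ne_zero_iff.2 (Lib.jj_ne γ (Lib.mob_mem h hz)))
  rw [Lib.mob_mul γ h hz, hE γ hγ _ (Lib.mob_mem h hz), Lib.jj_mul γ h hz, norm_mul, mul_pow,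
    mul_inv]
  calc ‖jj γ (mob h z)‖ ^ 4 * Ψ (mob h z) * ((‖jj γ (mob h z)‖ ^ 4)⁻¹ * (‖jj h z‖ ^ 4)⁻¹) =
      (‖jj γ (mob h z)‖ ^ 4 * (‖jj γ (mob h z)‖ ^ 4)⁻¹) * (Ψ (mob h z) * (‖jj h z‖ ^ 4)⁻¹) := by
        ring
    _ = _ := by rw [mul_inv_cancel₀ hj, one_mul]

/-- sum over the cosets -/
theorem hab4_step {N : ℕ} {W : ℂ → ℝ} (hW : WOK N W)
    {Ψ : ℂ → ℝ} (hΨ : ContinuousOn Ψ UH)
    (hE : ∀ g ∈ CongruenceSubgroup.Gamma0 N, ∀ z ∈ UH, Ψ (mob g z) = ‖jj g z‖ ^ 4 * Ψ z)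
    (h : SL(2, ℤ)) {I : SL(2, ℤ) → ℝ≥0∞} (hI : I = fun g => ∫⁻ z in D0,
      ENNReal.ofReal (W (mob g z) * hab4_G Ψ g z)) :
    ∑' γ : CongruenceSubgroup.Gamma0 N, I (γ.1 * h) =
      ∫⁻ z in D0, ENNReal.ofReal (hab4_G Ψ h z) := by
  have : Countable SL(2, ℤ) := cov_countable
  have hsum : ∀ z ∈ UH, ∑' g : CongruenceSubgroup.Gamma0 N, ENNReal.ofReal (W (mob g.1 z)) = 1 := by
    intro z hz
    rw [← ENNReal.ofReal_tsum_of_nonneg (fun g => hW.nonneg _) (hW.sum z hz).summable,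
      (hW.sum z hz).tsum_eq, ENNReal.ofReal_one]
  obtain ⟨G, hG⟩ : ∃ G : ℂ → ℝ≥0∞, G = fun z => ENNReal.ofReal (UH.indicator (hab4_G Ψ h) z) :=
    ⟨_, rfl⟩
  have hGm : Measurable G := by
    rw [hG]
    exact (hab4_measF (hab4_G_cont hΨ h)).ennreal_ofReal
  have hGz : ∀ z ∈ UH, G z = ENNReal.ofReal (hab4_G Ψ h z) := by
    intro z hz
    rw [hG]
    show ENNReal.ofReal (UH.indicator (hab4_G Ψ h) z) = _
    rw [Set.indicator_of_mem hz]
  have s4 : ∀ γ : CongruenceSubgroup.Gamma0 N, I (γ.1 * h) =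
      ∫⁻ z in D0, ENNReal.ofReal (W (mob γ.1 (mob h z))) * G z := by
    intro γ
    rw [hI]
    refine setLIntegral_congr_fun hab4_D0_meas fun z hz => ?_
    have hzU := hab4_D0U hz
    show ENNReal.ofReal (W (mob (γ.1 * h) z) * hab4_G Ψ (γ.1 * h) z) =
      ENNReal.ofReal (W (mob γ.1 (mob h z))) * G z
    rw [hab4_G_mul hE γ.2 _ hzU, Lib.mob_mul _ _ hzU, ENNReal.ofReal_mul (hW.nonneg _), hGz z hzU]
  have s5 : ∑' γ : CongruenceSubgroup.Gamma0 N, I (γ.1 * h) =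
      ∑' γ : CongruenceSubgroup.Gamma0 N,
        ∫⁻ z in D0, ENNReal.ofReal (W (mob γ.1 (mob h z))) * G z := tsum_congr s4
  have hmeas : ∀ γ : CongruenceSubgroup.Gamma0 N,
      Measurable fun z => ENNReal.ofReal (W (mob γ.1 (mob h z))) * G z := fun γ =>
    ((hW.meas.comp ((cov_mob_meas γ.1).comp (cov_mob_meas h))).ennreal_ofReal).mul hGm
  rw [s5, ← lintegral_tsum fun γ => (hmeas γ).aemeasurable]
  refine setLIntegral_congr_fun hab4_D0_meas fun z hz => ?_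
  have hzU := hab4_D0U hz
  show (∑' γ : CongruenceSubgroup.Gamma0 N, ENNReal.ofReal (W (mob γ.1 (mob h z))) * G z) =
    ENNReal.ofReal (hab4_G Ψ h z)
  rw [ENNReal.tsum_mul_right, hsum _ (Lib.mob_mem _ hzU), one_mul, hGz z hzU]

/-- the main identity for nonnegative parts -/
theorem hab4_main (hC : ST_COS) (hPN : ST_PNF) {N : ℕ} (hN : 1 ≤ N) {W : ℂ → ℝ} (hW : WOK N W)
    {Ψ : ℂ → ℝ} (hΨ : ContinuousOn Ψ UH)
    (hE : ∀ g ∈ CongruenceSubgroup.Gamma0 N, ∀ z ∈ UH, Ψ (mob g z) = ‖jj g z‖ ^ 4 * Ψ z) :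
    6 * ∫⁻ z in UH, ENNReal.ofReal (W z * Ψ z) =
      ∑' x : PN N, ∫⁻ z in D0, ENNReal.ofReal (hab4_G Ψ (rep N x) z) := by
  classical
  have : Countable SL(2, ℤ) := cov_countable
  have hPfin : Finite (PN N) := (hPN N hN).1
  have hPc : Countable (PN N) := Finite.to_countable
  have hsum : ∀ z ∈ UH, ∑' g : CongruenceSubgroup.Gamma0 N, ENNReal.ofReal (W (mob g.1 z)) = 1 := by
    intro z hz
    rw [← ENNReal.ofReal_tsum_of_nonneg (fun g => hW.nonneg _) (hW.sum z hz).summable,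
      (hW.sum z hz).tsum_eq, ENNReal.ofReal_one]
  obtain ⟨F, hFdef⟩ : ∃ F : ℂ → ℝ≥0∞, F = fun z => ENNReal.ofReal (W z * UH.indicator Ψ z) :=
    ⟨_, rfl⟩
  have hFm : Measurable F := by
    rw [hFdef]
    exact (hW.meas.mul (hab4_measF hΨ)).ennreal_ofReal
  have hF : ∀ z ∈ UH, F z = ENNReal.ofReal (W z * Ψ z) := by
    intro z hz
    rw [hFdef]
    show ENNReal.ofReal (W z * UH.indicator Ψ z) = _
    rw [Set.indicator_of_mem hz]
  have hm : ∀ g : SL(2, ℤ), MeasurableSet {z | mob g z ∈ D0} := fun g =>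
    cov_mob_meas g hab4_D0_meas
  have s1 : 6 * ∫⁻ z in UH, ENNReal.ofReal (W z * Ψ z) =
      ∑' g : SL(2, ℤ), ∫⁻ z in UH, {z | mob g z ∈ D0}.indicator F z := by
    rw [← setLIntegral_congr_fun fold_UH hF, ← lintegral_const_mul 6 hFm,
      ← lintegral_tsum fun g => (hFm.indicator (hm g)).aemeasurable]
    refine lintegral_congr_ae ?_
    filter_upwards [hab4_six F] with z hz
    exact hz.symm
  have s2 : ∀ g : SL(2, ℤ), ∫⁻ z in UH, {z | mob g z ∈ D0}.indicator F z =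
      ∫⁻ z in D0, ENNReal.ofReal (W (mob g⁻¹ z) * hab4_G Ψ g⁻¹ z) := by
    intro g
    rw [setLIntegral_indicator (hm g), Set.inter_comm]
    have e1 : UH ∩ {z | mob g z ∈ D0} = mob g⁻¹ '' D0 := by
      rw [cov_image g⁻¹ fun z hz => hab4_D0U hz, inv_inv]
      rfl
    rw [e1, cov_change g⁻¹ hab4_D0_meas fun z hz => hab4_D0U hz]
    refine setLIntegral_congr_fun hab4_D0_meas fun z hz => ?_
    have hzU := hab4_D0U hz
    show ENNReal.ofReal ((‖jj g⁻¹ z‖ ^ 4)⁻¹) * F (mob g⁻¹ z) =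
      ENNReal.ofReal (W (mob g⁻¹ z) * hab4_G Ψ g⁻¹ z)
    rw [hF _ (Lib.mob_mem g⁻¹ hzU), ← ENNReal.ofReal_mul (by positivity)]
    congr 1
    unfold hab4_G
    ring
  obtain ⟨I, hI⟩ : ∃ I : SL(2, ℤ) → ℝ≥0∞, I = fun g => ∫⁻ z in D0,
    ENNReal.ofReal (W (mob g z) * hab4_G Ψ g z) := ⟨_, rfl⟩
  have s3 : ∑' g : SL(2, ℤ), I g⁻¹ = ∑' g : SL(2, ℤ), I g := (Equiv.inv SL(2, ℤ)).tsum_eq I
  have s5 : ∑' g : SL(2, ℤ), I g = ∑' x : PN N, ∑' γ : CongruenceSubgroup.Gamma0 N,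
      I (γ.1 * rep N x) := by
    rw [← (foldE hC hN).tsum_eq, ENNReal.tsum_prod']
    rfl
  have s6 : ∑' g : SL(2, ℤ), ∫⁻ z in UH, {z | mob g z ∈ D0}.indicator F z =
      ∑' g : SL(2, ℤ), I g⁻¹ := by
    refine tsum_congr fun g => ?_
    rw [s2 g, hI]
  rw [s1, s6, s3, s5]
  refine tsum_congr fun x => ?_
  exact hab4_step hW hΨ hE (rep N x) hI

/-- **Module HAB4.** -/
theorem st_HAB4 (hC : ST_COS) (hPN : ST_PNF) : ST_HAB4 := by
  intro N W Ψ hN hW hΨ hE hint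
  classical
  have hPfin : Finite (PN N) := (hPN N hN).1
  have _ := Fintype.ofFinite (PN N)
  -- integrability
  have hEabs : ∀ g ∈ CongruenceSubgroup.Gamma0 N, ∀ z ∈ UH,
      |Ψ (mob g z)| = ‖jj g z‖ ^ 4 * |Ψ z| := by
    intro g hg z hz
    rw [hE g hg z hz, abs_mul, abs_of_nonneg (by positivity)]
  have hEneg : ∀ g ∈ CongruenceSubgroup.Gamma0 N, ∀ z ∈ UH,
      -Ψ (mob g z) = ‖jj g z‖ ^ 4 * -Ψ z := by
    intro g hg z hz
    rw [hE g hg z hz]
    ring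
  have hfin : ∑' x : PN N, ∫⁻ z in D0, ENNReal.ofReal (hab4_G (fun z => |Ψ z|) (rep N x) z) < ∞ := by
    rw [← hab4_main hC hPN hN hW (Ψ := fun z => |Ψ z|) hΨ.abs hEabs]
    refine ENNReal.mul_lt_top (by simp) ?_
    refine lt_of_le_of_lt (lintegral_mono fun z => ?_) hint.2
    have : W z * |Ψ z| = ‖W z * Ψ z‖ := by
      rw [norm_mul, Real.norm_eq_abs, Real.norm_eq_abs, abs_of_nonneg (hW.nonneg z)]
    rw [this, ofReal_norm]
  have hI0 : ∀ x : PN N, IntegrableOn (hab4_G Ψ (rep N x)) D0 := by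
    intro x
    refine ⟨((hab4_G_cont hΨ _).mono fun z hz => hab4_D0U hz).aestronglyMeasurable hab4_D0_meas, ?_⟩
    have h1 := lt_of_le_of_lt (ENNReal.le_tsum x) hfin
    refine lt_of_le_of_lt (lintegral_mono fun z => ?_) h1
    rw [← ofReal_norm]
    refine ENNReal.ofReal_le_ofReal (le_of_eq ?_)
    unfold hab4_G
    rw [norm_mul, Real.norm_eq_abs, Real.norm_eq_abs, abs_of_nonneg (by positivity :
      (0 : ℝ) ≤ (‖jj (rep N x) z‖ ^ 4)⁻¹)]
  have hI : ∀ g : SL(2, ℤ), IntegrableOn (hab4_G Ψ g) D0 := by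
    intro g
    obtain ⟨h1, h2⟩ := hC N hN
    have h4 : g * (rep N (cls N g))⁻¹ ∈ CongruenceSubgroup.Gamma0 N :=
      (h2 (rep N (cls N g)) g).1 (h1 (cls N g))
    refine (hI0 (cls N g)).congr_fun (fun z hz => ?_) hab4_D0_meas
    have h5 := hab4_G_mul hE h4 (rep N (cls N g)) (hab4_D0U hz)
    rw [inv_mul_cancel_right] at h5
    exact h5.symm
  refine ⟨hI, ?_⟩
  have m1 := hab4_main hC hPN hN hW hΨ hE
  have m2 := hab4_main hC hPN hN hW (Ψ := fun z => -Ψ z) hΨ.neg hEneg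
  rw [tsum_fintype] at m1 m2
  have hf1 : ∀ x : PN N, ∫⁻ z in D0, ENNReal.ofReal (hab4_G Ψ (rep N x) z) ≠ ∞ := fun x =>
    ((hI0 x).lintegral_lt_top).ne
  have hf2 : ∀ x : PN N, ∫⁻ z in D0, ENNReal.ofReal (hab4_G (fun z => -Ψ z) (rep N x) z) ≠ ∞ := by
    intro x
    have h1 : hab4_G (fun z => -Ψ z) (rep N x) = fun z => -hab4_G Ψ (rep N x) z := by
      funext z
      unfold hab4_G
      ring
    rw [h1]
    exact ((hI0 x).neg.lintegral_lt_top).ne
  have e1 := integral_eq_lintegral_pos_part_sub_lintegral_neg_part hint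
  have e2 : ∀ x : PN N, ∫ z in D0, hab4_G Ψ (rep N x) z =
      (∫⁻ z in D0, ENNReal.ofReal (hab4_G Ψ (rep N x) z)).toReal -
        (∫⁻ z in D0, ENNReal.ofReal (hab4_G (fun z => -Ψ z) (rep N x) z)).toReal := by
    intro x
    rw [integral_eq_lintegral_pos_part_sub_lintegral_neg_part (hI0 x)]
    congr 2
    refine lintegral_congr fun z => ?_
    congr 1
    unfold hab4_G
    ring
  have e3 : ∑ᶠ x : PN N, ∫ z in D0, Ψ (mob (rep N x) z) * (‖jj (rep N x) z‖ ^ 4)⁻¹ =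
      ∑ x : PN N, ∫ z in D0, hab4_G Ψ (rep N x) z := by
    rw [finsum_eq_sum_of_fintype]
    rfl
  rw [e3, e1]
  simp only [e2]
  rw [Finset.sum_sub_distrib, ← ENNReal.toReal_sum fun x _ => hf1 x,
    ← ENNReal.toReal_sum fun x _ => hf2 x, ← m1, ← m2, ENNReal.toReal_mul, ENNReal.toReal_mul]
  have e4 : ∫⁻ z in UH, ENNReal.ofReal (-(W z * Ψ z)) =
      ∫⁻ z in UH, ENNReal.ofReal (W z * -Ψ z) := by
    refine lintegral_congr fun z => ?_
    congr 1
    ring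
  rw [e4]
  simp
  ring

end Pool.Agent.Helper96.MP
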