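import Pool.Agent.Helper96.MP.Defs

set_option autoImplicit false

/-! Module LIM: the limit of a minimizing sequence. -/

namespace Pool.Agent.Helper96.MP

open Complex MeasureTheory Filter Topology
open scoped MatrixGroups

theorem lim_UH_open : IsOpen UH := isOpen_lt continuous_const Complex.continuous_im

theorem lim_fd {u : ℂ → ℝ} (hu : ContDiffOn ℝ (⊤ : ℕ∞) u UH) (v : ℂ) :
    ContinuousOn (fun z => fderiv ℝ u z v) UH :=
  (hu.continuousOn_fderiv_of_isOpen lim_UH_open (by simp)).clm_apply continuousOn_const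

theorem lim_diff {u : ℂ → ℝ} (hu : ContDiffOn ℝ (⊤ : ℕ∞) u UH) {z : ℂ} (hz : z ∈ UH) :
    DifferentiableAt ℝ u z :=
  (hu.differentiableOn (by simp)).differentiableAt (lim_UH_open.mem_nhds hz)

theorem lim_DD_cont {u v : ℂ → ℝ} (hu : ContDiffOn ℝ (⊤ : ℕ∞) u UH)
    (hv : ContDiffOn ℝ (⊤ : ℕ∞) v UH) : ContinuousOn (DD u v) UH :=
  ((lim_fd hu 1).mul (lim_fd hv 1)).add ((lim_fd hu I).mul (lim_fd hv I))

theorem lim_cc_cont {u : ℂ → ℝ} (hu : ContDiffOn ℝ (⊤ : ℕ∞) u UH) : ContinuousOn (cc u) UH := by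
  have h2 : ∀ v : ℂ, ContinuousOn (fun z => ((fderiv ℝ u z v : ℝ) : ℂ)) UH := fun v =>
    Complex.continuous_ofReal.comp_continuousOn (lim_fd hu v)
  exact (h2 1).sub (continuousOn_const.mul (h2 I))

theorem lim_sub {u v : ℂ → ℝ} (hu : ContDiffOn ℝ (⊤ : ℕ∞) u UH)
    (hv : ContDiffOn ℝ (⊤ : ℕ∞) v UH) {z : ℂ} (hz : z ∈ UH) (w : ℂ) :
    fderiv ℝ (fun x => u x - v x) z w = fderiv ℝ u z w - fderiv ℝ v z w := by
  rw [fderiv_fun_sub (lim_diff hu hz) (lim_diff hv hz)]
  rfl

theorem lim_DD_nonneg (u : ℂ → ℝ) (z : ℂ) : 0 ≤ DD u u z :=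
  add_nonneg (mul_self_nonneg _) (mul_self_nonneg _)

theorem lim_sq {u v : ℂ → ℝ} (hu : ContDiffOn ℝ (⊤ : ℕ∞) u UH)
    (hv : ContDiffOn ℝ (⊤ : ℕ∞) v UH) {z : ℂ} (hz : z ∈ UH) :
    ‖cc u z - cc v z‖ ^ 2 = DD (fun w => u w - v w) (fun w => u w - v w) z := by
  unfold DD cc ux uy
  rw [lim_sub hu hv hz, lim_sub hu hv hz, ← Complex.normSq_eq_norm_sq, Complex.normSq_apply]
  simp only [Complex.sub_re, Complex.sub_im, Complex.mul_re, Complex.mul_im, Complex.ofReal_re,
    Complex.ofReal_im, Complex.I_re, Complex.I_im]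
  ring

theorem lim_adm {N : ℕ} {W : ℂ → ℝ} {ρ : SL(2, ℤ) → ℝ} {u v : ℂ → ℝ} (hW : WOK N W)
    (hu : Adm N W ρ u) (hv : Adm N W ρ v) : Adm N W (fun _ => 0) (fun w => u w - v w) := by
  refine ⟨hu.smooth.sub hv.smooth, ?_, ?_⟩
  · intro g hg z hz
    rw [hu.eqv g hg z hz, hv.eqv g hg z hz]
    ring
  · have h1 : Integrable (fun z => 2 * (W z * DD u u z) + 2 * (W z * DD v v z))
        (volume.restrict UH) := (hu.fin.const_mul 2).add (hv.fin.const_mul 2)
    refine Integrable.mono' h1 ?_ ?_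
    · exact hW.meas.aestronglyMeasurable.mul
        ((lim_DD_cont (hu.smooth.sub hv.smooth) (hu.smooth.sub hv.smooth)).aestronglyMeasurable
          lim_UH_open.measurableSet)
    · filter_upwards [ae_restrict_mem lim_UH_open.measurableSet] with z hz
      have h2 := lim_DD_nonneg (fun w => u w - v w) z
      rw [Real.norm_of_nonneg (mul_nonneg (hW.nonneg z) h2)]
      have h3 : DD (fun w => u w - v w) (fun w => u w - v w) z ≤ 2 * DD u u z + 2 * DD v v z := by
        unfold DD ux uy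
        rw [lim_sub hu.smooth hv.smooth hz, lim_sub hu.smooth hv.smooth hz]
        nlinarith [sq_nonneg (fderiv ℝ u z 1 + fderiv ℝ v z 1),
          sq_nonneg (fderiv ℝ u z I + fderiv ℝ v z I)]
      have h4 := mul_le_mul_of_nonneg_left h3 (hW.nonneg z)
      linarith

/-- the square of the norm of a sum of two functions -/
theorem lim_two (a b c : ℂ) : ‖b - c‖ ^ 2 ≤ 2 * ‖a - b‖ ^ 2 + 2 * ‖a - c‖ ^ 2 := by
  have h1 : ‖b - c‖ ≤ ‖a - b‖ + ‖a - c‖ := by
    have h2 : b - c = (a - c) - (a - b) := by ring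
    rw [h2]
    exact (norm_sub_le _ _).trans (by rw [add_comm])
  have h3 : ‖b - c‖ ^ 2 ≤ (‖a - b‖ + ‖a - c‖) ^ 2 := by
    exact pow_le_pow_left₀ (norm_nonneg _) h1 2
  nlinarith [sq_nonneg (‖a - b‖ - ‖a - c‖)]

theorem lim_ball {z : ℂ} {s : ℝ} (hs : s < z.im) : Metric.closedBall z s ⊆ UH := by
  intro w hw
  rw [Metric.mem_closedBall, dist_eq_norm] at hw
  have h1 := Complex.abs_im_le_norm (w - z)
  rw [Complex.sub_im] at h1
  show 0 < w.im
  have h2 := (abs_le.1 (h1.trans hw)).1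
  linarith

/-- integrability of the difference on a ball -/
theorem lim_int {z0 : ℂ} {r : ℝ} (hK : Metric.closedBall z0 r ⊆ UH) {u : ℂ → ℝ}
    (hu : ContDiffOn ℝ (⊤ : ℕ∞) u UH) {h : ℂ → ℂ} (hd : DifferentiableOn ℂ h (Metric.ball z0 r))
    (hi : IntegrableOn (fun z => ‖h z‖ ^ 2) (Metric.ball z0 r)) :
    IntegrableOn (fun z => ‖cc u z - h z‖ ^ 2) (Metric.ball z0 r) := by
  have h1 : ContinuousOn (fun z => ‖cc u z‖ ^ 2) (Metric.closedBall z0 r) :=
    ((lim_cc_cont hu).mono hK).norm.pow 2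
  have h2 : IntegrableOn (fun z => ‖cc u z‖ ^ 2) (Metric.ball z0 r) :=
    (h1.integrableOn_compact (isCompact_closedBall z0 r)).mono_set Metric.ball_subset_closedBall
  have h3 : Integrable (fun z => 2 * ‖cc u z‖ ^ 2 + 2 * ‖h z‖ ^ 2)
      (volume.restrict (Metric.ball z0 r)) := (h2.const_mul 2).add (hi.const_mul 2)
  refine Integrable.mono' h3 ?_ ?_
  · have h4 : ContinuousOn (fun z => ‖cc u z - h z‖ ^ 2) (Metric.ball z0 r) :=
      ((((lim_cc_cont hu).mono (Metric.ball_subset_closedBall.trans hK)).sub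
        hd.continuousOn).norm).pow 2
    exact h4.aestronglyMeasurable Metric.isOpen_ball.measurableSet
  · refine Eventually.of_forall fun z => ?_
    rw [Real.norm_of_nonneg (by positivity)]
    have h5 := lim_two 0 (cc u z) (h z)
    simpa using h5

theorem st_LIM (hCOV : ST_COV) (hOVER : ST_OVER) (hCONF : ST_CONF) (hTEST : ST_TEST)
    (hWEYL : ST_WEYL2) : ST_LIM := by
  intro N W ρ u hN hW hu hC hT
  have hm : MeasurableSet UH := lim_UH_open.measurableSet
  -- the Cauchy property on balls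
  have hcau : ∀ (z0 : ℂ) (r : ℝ), Metric.closedBall z0 r ⊆ UH → ∀ ε : ℝ, 0 < ε →
      ∃ J : ℕ, ∀ i j, J ≤ i → J ≤ j →
        ∫ z in Metric.ball z0 r, ‖cc (u i) z - cc (u j) z‖ ^ 2 ≤ ε := by
    intro z0 r hK ε hε
    obtain ⟨m, hm1⟩ := hOVER.1 _ (isCompact_closedBall z0 r) hK
    obtain ⟨J, hJ⟩ := hC (ε / ((m : ℝ) + 1)) (by positivity)
    refine ⟨J, fun i j hi hj => ?_⟩
    have hA := lim_adm hW (hu i) (hu j)
    obtain ⟨hi1, hi2⟩ := hCOV N W hN hW _ m Metric.isClosed_closedBall.measurableSet hK hm1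
      (DD (fun w => u i w - u j w) (fun w => u i w - u j w)) (lim_DD_cont hA.smooth hA.smooth)
      (fun z _ => lim_DD_nonneg _ z)
      (fun g hg z hz => (hCONF N W _ _ _ _ hN hA hA g hg z hz).2) hA.fin
    have h1 : ∫ z in Metric.ball z0 r, ‖cc (u i) z - cc (u j) z‖ ^ 2 =
        ∫ z in Metric.ball z0 r, DD (fun w => u i w - u j w) (fun w => u i w - u j w) z := by
      refine setIntegral_congr_fun Metric.isOpen_ball.measurableSet fun z hz => ?_
      exact lim_sq (hu i).smooth (hu j).smooth (hK (Metric.ball_subset_closedBall hz))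
    rw [h1]
    have h2 : ∫ z in Metric.ball z0 r, DD (fun w => u i w - u j w) (fun w => u i w - u j w) z ≤
        ∫ z in Metric.closedBall z0 r, DD (fun w => u i w - u j w) (fun w => u i w - u j w) z :=
      setIntegral_mono_set hi1 (Eventually.of_forall fun z => lim_DD_nonneg _ z)
        (Eventually.of_forall fun z hz => Metric.ball_subset_closedBall hz)
    have h3 := hJ i j hi hj
    calc _ ≤ _ := h2
      _ ≤ _ := hi2
      _ ≤ (m : ℝ) * (ε / ((m : ℝ) + 1)) := mul_le_mul_of_nonneg_left h3 (Nat.cast_nonneg m)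
      _ ≤ ε := by
        rw [mul_div_assoc', div_le_iff₀ (by positivity)]
        nlinarith
  -- local limits
  have hloc : ∀ z0 ∈ UH, ∃ h : ℂ → ℂ, DifferentiableOn ℂ h (Metric.ball z0 (z0.im / 4)) ∧
      IntegrableOn (fun z => ‖h z‖ ^ 2) (Metric.ball z0 (z0.im / 4)) ∧
      Tendsto (fun j => ∫ z in Metric.ball z0 (z0.im / 4), ‖cc (u j) z - h z‖ ^ 2) atTop
        (𝓝 0) := by
    intro z0 hz0
    have hz0' : 0 < z0.im := hz0
    have hK : Metric.closedBall z0 (z0.im / 4) ⊆ UH := lim_ball (by linarith)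
    have hK2 : Metric.ball z0 (2 * (z0.im / 4)) ⊆ UH :=
      Metric.ball_subset_closedBall.trans (lim_ball (by linarith))
    refine hWEYL z0 (z0.im / 4) u (by linarith) (fun j => (hu j).smooth.mono hK2) (hcau z0 _ hK) ?_
    intro a ha hac has
    have hsub : tsupport a ⊆ UH := has.trans (Metric.ball_subset_closedBall.trans hK)
    have h1 := hT _ (hTEST N W ρ (u 0) a hN hW (hu 0) ha hac hsub).1
    refine h1.congr fun j => ?_
    rw [(hTEST N W ρ (u j) a hN hW (hu j) ha hac hsub).2]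
    refine setIntegral_eq_of_subset_of_forall_sdiff_eq_zero hm
      (Metric.ball_subset_closedBall.trans hK) ?_
    intro z hz
    have h2 : z ∉ tsupport a := fun h => hz.2 (has h)
    unfold DD ux uy
    rw [fderiv_of_notMem_tsupport (𝕜 := ℝ) h2]
    simp
  choose! H hH1 hH2 hH3 using hloc
  -- gluing
  have hglue : ∀ z0 ∈ UH, ∀ w ∈ Metric.ball z0 (z0.im / 4), H w w = H z0 w := by
    intro z0 hz0 w hw
    have hz0' : 0 < z0.im := hz0
    have hK0 : Metric.closedBall z0 (z0.im / 4) ⊆ UH := lim_ball (by linarith)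
    have hwU : w ∈ UH := hK0 (Metric.ball_subset_closedBall hw)
    have hw' : 0 < w.im := hwU
    have hKw : Metric.closedBall w (w.im / 4) ⊆ UH := lim_ball (by linarith)
    have hBo : IsOpen (Metric.ball w (w.im / 4) ∩ Metric.ball z0 (z0.im / 4)) :=
      Metric.isOpen_ball.inter Metric.isOpen_ball
    set B := Metric.ball w (w.im / 4) ∩ Metric.ball z0 (z0.im / 4) with hB
    have hi1 : ∀ j, IntegrableOn (fun z => ‖cc (u j) z - H w z‖ ^ 2) (Metric.ball w (w.im / 4)) :=
      fun j => lim_int hKw (hu j).smooth (hH1 w hwU) (hH2 w hwU)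
    have hi2 : ∀ j, IntegrableOn (fun z => ‖cc (u j) z - H z0 z‖ ^ 2)
        (Metric.ball z0 (z0.im / 4)) :=
      fun j => lim_int hK0 (hu j).smooth (hH1 z0 hz0) (hH2 z0 hz0)
    have hi3 : ∀ j, IntegrableOn (fun z => 2 * ‖cc (u j) z - H w z‖ ^ 2 +
        2 * ‖cc (u j) z - H z0 z‖ ^ 2) B := fun j =>
      (((hi1 j).mono_set Set.inter_subset_left).const_mul 2).add
        (((hi2 j).mono_set Set.inter_subset_right).const_mul 2)
    have hc1 : ContinuousOn (H w) B := (hH1 w hwU).continuousOn.mono Set.inter_subset_left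
    have hc2 : ContinuousOn (H z0) B := (hH1 z0 hz0).continuousOn.mono Set.inter_subset_right
    have hi4 : IntegrableOn (fun z => ‖H w z - H z0 z‖ ^ 2) B := by
      refine Integrable.mono' (hi3 0) ?_ ?_
      · exact (((hc1.sub hc2).norm).pow 2).aestronglyMeasurable hBo.measurableSet
      · refine Eventually.of_forall fun z => ?_
        rw [Real.norm_of_nonneg (by positivity)]
        exact lim_two _ _ _
    have hle : ∀ j, ∫ z in B, ‖H w z - H z0 z‖ ^ 2 ≤
        2 * (∫ z in Metric.ball w (w.im / 4), ‖cc (u j) z - H w z‖ ^ 2) +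
        2 * (∫ z in Metric.ball z0 (z0.im / 4), ‖cc (u j) z - H z0 z‖ ^ 2) := by
      intro j
      have h1 : ∫ z in B, ‖H w z - H z0 z‖ ^ 2 ≤ ∫ z in B, (2 * ‖cc (u j) z - H w z‖ ^ 2 +
          2 * ‖cc (u j) z - H z0 z‖ ^ 2) :=
        integral_mono hi4 (hi3 j) fun z => lim_two _ _ _
      rw [integral_add (((hi1 j).mono_set Set.inter_subset_left).const_mul 2)
        (((hi2 j).mono_set Set.inter_subset_right).const_mul 2), integral_const_mul,
        integral_const_mul] at h1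
      have h2 : ∫ z in B, ‖cc (u j) z - H w z‖ ^ 2 ≤
          ∫ z in Metric.ball w (w.im / 4), ‖cc (u j) z - H w z‖ ^ 2 :=
        setIntegral_mono_set (hi1 j) (Eventually.of_forall fun z => by positivity)
          (Eventually.of_forall fun z hz => hz.1)
      have h3 : ∫ z in B, ‖cc (u j) z - H z0 z‖ ^ 2 ≤
          ∫ z in Metric.ball z0 (z0.im / 4), ‖cc (u j) z - H z0 z‖ ^ 2 :=
        setIntegral_mono_set (hi2 j) (Eventually.of_forall fun z => by positivity)
          (Eventually.of_forall fun z hz => hz.2)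
      linarith
    have hlim : Tendsto (fun j =>
        2 * (∫ z in Metric.ball w (w.im / 4), ‖cc (u j) z - H w z‖ ^ 2) +
        2 * (∫ z in Metric.ball z0 (z0.im / 4), ‖cc (u j) z - H z0 z‖ ^ 2)) atTop (𝓝 0) := by
      have h1 := ((hH3 w hwU).const_mul 2).add ((hH3 z0 hz0).const_mul 2)
      simpa using h1
    have h0 : ∫ z in B, ‖H w z - H z0 z‖ ^ 2 ≤ 0 := ge_of_tendsto' hlim hle
    have h00 : ∫ z in B, ‖H w z - H z0 z‖ ^ 2 = 0 :=
      le_antisymm h0 (integral_nonneg fun z => by positivity)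
    have hae := (integral_eq_zero_iff_of_nonneg (μ := volume.restrict B)
      (f := fun z => ‖H w z - H z0 z‖ ^ 2) (fun z => by positivity) hi4).1 h00
    have hae2 : H w =ᵐ[volume.restrict B] H z0 := by
      filter_upwards [hae] with z hz
      have h1 : ‖H w z - H z0 z‖ ^ 2 = 0 := hz
      have h2 : ‖H w z - H z0 z‖ = 0 := by
        exact pow_eq_zero_iff (two_ne_zero) |>.1 h1
      exact sub_eq_zero.1 (norm_eq_zero.1 h2)
    exact Measure.eqOn_open_of_ae_eq hae2 hBo hc1 hc2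
      ⟨Metric.mem_ball_self (by linarith), hw⟩
  refine ⟨fun w => H w w, ?_, ?_⟩
  · intro z0 hz0
    have hz0' : 0 < z0.im := hz0
    have h1 : DifferentiableAt ℂ (H z0) z0 :=
      (hH1 z0 hz0).differentiableAt (Metric.ball_mem_nhds z0 (by linarith))
    refine (h1.congr_of_eventuallyEq ?_).differentiableWithinAt
    filter_upwards [Metric.ball_mem_nhds z0 (show 0 < z0.im / 4 by linarith)] with w hw
    exact hglue z0 hz0 w hw
  · intro z0 hz0
    have hz0' : 0 < z0.im := hz0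
    refine ⟨z0.im / 4, by linarith, lim_ball (by linarith), ?_⟩
    refine (hH3 z0 hz0).congr fun j => ?_
    refine setIntegral_congr_fun Metric.isOpen_ball.measurableSet fun z hz => ?_
    show ‖cc (u j) z - H z0 z‖ ^ 2 = ‖cc (u j) z - H z z‖ ^ 2
    rw [hglue z0 hz0 z hz]

end Pool.Agent.Helper96.MP
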